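import Pool.Agent.W2helper59.NW.Stm

/-!
# Piece LE of MP_5fb7d4_co: local inequality for the dodecahedron
-/

set_option autoImplicit false

namespace Pool.Agent.W2helper54.NW

open Pool.Agent.W2helper59.NW
open scoped goldenRatio

/-! ## approximate arithmetic -/

lemma Ap.const (x : ℝ) : |x - x| ≤ 0 := by simp

lemma Ap.add {x x0 e y y0 f : ℝ} (h : |x - x0| ≤ e) (k : |y - y0| ≤ f) :
    |(x + y) - (x0 + y0)| ≤ e + f := by
  rw [show (x + y) - (x0 + y0) = (x - x0) + (y - y0) by ring]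
  exact (abs_add_le _ _).trans (add_le_add h k)

lemma Ap.sub {x x0 e y y0 f : ℝ} (h : |x - x0| ≤ e) (k : |y - y0| ≤ f) :
    |(x - y) - (x0 - y0)| ≤ e + f := by
  rw [show (x - y) - (x0 - y0) = (x - x0) - (y - y0) by ring]
  exact (abs_sub _ _).trans (add_le_add h k)

lemma Ap.neg {x x0 e : ℝ} (h : |x - x0| ≤ e) : |(-x) - (-x0)| ≤ e := by
  rw [show (-x) - (-x0) = -(x - x0) by ring, abs_neg]; exact h

lemma Ap.mul {x x0 e y y0 f : ℝ} (h : |x - x0| ≤ e) (k : |y - y0| ≤ f) (h1 : |x0| ≤ 4)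
    (h2 : |y0| ≤ 4) (he : e ≤ 1) (_hf : f ≤ 1) : |x * y - x0 * y0| ≤ 5 * (e + f) := by
  have e0 : 0 ≤ e := (abs_nonneg _).trans h
  have f0 : 0 ≤ f := (abs_nonneg _).trans k
  have hx : |x| ≤ 5 := by
    have : |x| ≤ |x - x0| + |x0| := by
      have := abs_add_le (x - x0) x0
      simpa using this
    linarith
  rw [show x * y - x0 * y0 = x * (y - y0) + (x - x0) * y0 by ring]
  refine (abs_add_le _ _).trans ?_
  rw [abs_mul, abs_mul]
  have a1 : |x| * |y - y0| ≤ 5 * f := mul_le_mul hx k (abs_nonneg _) (by norm_num)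
  have a2 : |x - x0| * |y0| ≤ e * 4 := mul_le_mul h h2 (abs_nonneg _) e0
  linarith

lemma Ap.fin {x x0 e t d : ℝ} (h : |x - x0| ≤ e) (h1 : x0 - t ≤ d - e) (h2 : t - x0 ≤ d - e) :
    |x - t| ≤ d := by
  rw [abs_le] at *
  constructor <;> linarith [h.1, h.2]

lemma phi_apx : |φ - 16180339887/10^10| ≤ 1/10^9 := by
  have h := Real.goldenRatio_sq
  have h1 := Real.one_lt_goldenRatio
  rw [abs_le]
  constructor <;> nlinarith

lemma apx {A B p q c : ℝ} (h : Opt A B p q c) :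
    |A - 9647222792876086 / 10 ^ 16| ≤ 1 / 10 ^ 14 ∧
    |B - 2632696789342089 / 10 ^ 16| ≤ 1 / 10 ^ 14 ∧
    |p - 9362304294341269 / 10 ^ 16| ≤ 1 / 10 ^ 14 ∧
    |q - 3513866574040487 / 10 ^ 16| ≤ 1 / 10 ^ 14 ∧
    |c - 10108230607529006 / 10 ^ 16| ≤ 1 / 10 ^ 14 ∧
    |φ - 16180339887/10^10| ≤ 1/10^9 :=
  ⟨h.nA, h.nB, h.np, h.nq, h.nc, phi_apx⟩

lemma x11 {A B p q c : ℝ} (h : Opt A B p q c) : |(((φ-1)*p)-c*(φ-1))*((2-φ)*q-p)-(((φ-1)*q)-c*(φ*B))*((2-φ)*p+q) - ((18829)/10^5)| ≤ 1/10^5 := by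
  obtain ⟨hA, hB, hp, hq, hc, hf⟩ := apx h
  exact Ap.fin (Ap.sub (Ap.mul (Ap.sub (Ap.mul (Ap.sub hf (Ap.const 1)) hp (by norm_num) (by norm_num) (by norm_num) (by norm_num)) (Ap.mul hc (Ap.sub hf (Ap.const 1)) (by norm_num) (by norm_num) (by norm_num) (by norm_num))) (Ap.sub (Ap.mul (Ap.sub (Ap.const 2) hf) hq (by norm_num) (by norm_num) (by norm_num) (by norm_num)) hp) (by norm_num) (by norm_num) (by norm_num) (by norm_num)) (Ap.mul (Ap.sub (Ap.mul (Ap.sub hf (Ap.const 1)) hq (by norm_num) (by norm_num) (by norm_num) (by norm_num)) (Ap.mul hc (Ap.mul hf hB (by norm_num) (by norm_num) (by norm_num) (by norm_num)) (by norm_num) (by norm_num) (by norm_num) (by norm_num))) (Ap.add (Ap.mul (Ap.sub (Ap.const 2) hf) hp (by norm_num) (by norm_num) (by norm_num) (by norm_num)) hq) (by norm_num) (by norm_num) (by norm_num) (by norm_num))) (by norm_num) (by norm_num)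

lemma x12 {A B p q c : ℝ} (h : Opt A B p q c) : |(((φ-1)*q)-c*(φ*B))*(1-φ)-((φ)-c*(φ*A))*((2-φ)*q-p) - ((16413)/10^5)| ≤ 1/10^5 := by
  obtain ⟨hA, hB, hp, hq, hc, hf⟩ := apx h
  exact Ap.fin (Ap.sub (Ap.mul (Ap.sub (Ap.mul (Ap.sub hf (Ap.const 1)) hq (by norm_num) (by norm_num) (by norm_num) (by norm_num)) (Ap.mul hc (Ap.mul hf hB (by norm_num) (by norm_num) (by norm_num) (by norm_num)) (by norm_num) (by norm_num) (by norm_num) (by norm_num))) (Ap.sub (Ap.const 1) hf) (by norm_num) (by norm_num) (by norm_num) (by norm_num)) (Ap.mul (Ap.sub hf (Ap.mul hc (Ap.mul hf hA (by norm_num) (by norm_num) (by norm_num) (by norm_num)) (by norm_num) (by norm_num) (by norm_num) (by norm_num))) (Ap.sub (Ap.mul (Ap.sub (Ap.const 2) hf) hq (by norm_num) (by norm_num) (by norm_num) (by norm_num)) hp) (by norm_num) (by norm_num) (by norm_num) (by norm_num))) (by norm_num) (by norm_num)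

lemma x13 {A B p q c : ℝ} (h : Opt A B p q c) : |-(2*c*(φ*B)*(1-φ)) - ((53224)/10^5)| ≤ 1/10^5 := by
  obtain ⟨hA, hB, hp, hq, hc, hf⟩ := apx h
  exact Ap.fin (Ap.neg (Ap.mul (Ap.mul (Ap.mul (Ap.const 2) hc (by norm_num) (by norm_num) (by norm_num) (by norm_num)) (Ap.mul hf hB (by norm_num) (by norm_num) (by norm_num) (by norm_num)) (by norm_num) (by norm_num) (by norm_num) (by norm_num)) (Ap.sub (Ap.const 1) hf) (by norm_num) (by norm_num) (by norm_num) (by norm_num))) (by norm_num) (by norm_num)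

lemma x14 {A B p q c : ℝ} (h : Opt A B p q c) : |-(2*c*(φ*B)*((2-φ)*p+q)) - ((-61057)/10^5)| ≤ 1/10^5 := by
  obtain ⟨hA, hB, hp, hq, hc, hf⟩ := apx h
  exact Ap.fin (Ap.neg (Ap.mul (Ap.mul (Ap.mul (Ap.const 2) hc (by norm_num) (by norm_num) (by norm_num) (by norm_num)) (Ap.mul hf hB (by norm_num) (by norm_num) (by norm_num) (by norm_num)) (by norm_num) (by norm_num) (by norm_num) (by norm_num)) (Ap.add (Ap.mul (Ap.sub (Ap.const 2) hf) hp (by norm_num) (by norm_num) (by norm_num) (by norm_num)) hq) (by norm_num) (by norm_num) (by norm_num) (by norm_num))) (by norm_num) (by norm_num)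

lemma x15 {A B p q c : ℝ} (h : Opt A B p q c) : |2*c*((φ*A)*(1-φ)+(φ-1)*((2-φ)*p+q)) - ((-106448)/10^5)| ≤ 1/10^5 := by
  obtain ⟨hA, hB, hp, hq, hc, hf⟩ := apx h
  exact Ap.fin (Ap.mul (Ap.mul (Ap.const 2) hc (by norm_num) (by norm_num) (by norm_num) (by norm_num)) (Ap.add (Ap.mul (Ap.mul hf hA (by norm_num) (by norm_num) (by norm_num) (by norm_num)) (Ap.sub (Ap.const 1) hf) (by norm_num) (by norm_num) (by norm_num) (by norm_num)) (Ap.mul (Ap.sub hf (Ap.const 1)) (Ap.add (Ap.mul (Ap.sub (Ap.const 2) hf) hp (by norm_num) (by norm_num) (by norm_num) (by norm_num)) hq) (by norm_num) (by norm_num) (by norm_num) (by norm_num))) (by norm_num) (by norm_num) (by norm_num) (by norm_num)) (by norm_num) (by norm_num)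

lemma x21 {A B p q c : ℝ} (h : Opt A B p q c) : |(((φ-1)*p)-c*(1))*((2-φ)*q-p)-(((φ-1)*q)-c*(B-A))*((2-φ)*p+q) - ((-31005)/10^5)| ≤ 1/10^5 := by
  obtain ⟨hA, hB, hp, hq, hc, hf⟩ := apx h
  exact Ap.fin (Ap.sub (Ap.mul (Ap.sub (Ap.mul (Ap.sub hf (Ap.const 1)) hp (by norm_num) (by norm_num) (by norm_num) (by norm_num)) (Ap.mul hc (Ap.const 1) (by norm_num) (by norm_num) (by norm_num) (by norm_num))) (Ap.sub (Ap.mul (Ap.sub (Ap.const 2) hf) hq (by norm_num) (by norm_num) (by norm_num) (by norm_num)) hp) (by norm_num) (by norm_num) (by norm_num) (by norm_num)) (Ap.mul (Ap.sub (Ap.mul (Ap.sub hf (Ap.const 1)) hq (by norm_num) (by norm_num) (by norm_num) (by norm_num)) (Ap.mul hc (Ap.sub hB hA) (by norm_num) (by norm_num) (by norm_num) (by norm_num))) (Ap.add (Ap.mul (Ap.sub (Ap.const 2) hf) hp (by norm_num) (by norm_num) (by norm_num) (by norm_num)) hq) (by norm_num) (by norm_num) (by norm_num) (by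 norm_num))) (by norm_num) (by norm_num)

lemma x22 {A B p q c : ℝ} (h : Opt A B p q c) : |(((φ-1)*q)-c*(B-A))*(1-φ)-((φ)-c*(A+B))*((2-φ)*q-p) - ((-27027)/10^5)| ≤ 1/10^5 := by
  obtain ⟨hA, hB, hp, hq, hc, hf⟩ := apx h
  exact Ap.fin (Ap.sub (Ap.mul (Ap.sub (Ap.mul (Ap.sub hf (Ap.const 1)) hq (by norm_num) (by norm_num) (by norm_num) (by norm_num)) (Ap.mul hc (Ap.sub hB hA) (by norm_num) (by norm_num) (by norm_num) (by norm_num))) (Ap.sub (Ap.const 1) hf) (by norm_num) (by norm_num) (by norm_num) (by norm_num)) (Ap.mul (Ap.sub hf (Ap.mul hc (Ap.add hA hB) (by norm_num) (by norm_num) (by norm_num) (by norm_num))) (Ap.sub (Ap.mul (Ap.sub (Ap.const 2) hf) hq (by norm_num) (by norm_num) (by norm_num) (by norm_num)) hp) (by norm_num) (by norm_num) (by norm_num) (by norm_num))) (by norm_num) (by norm_num)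

lemma x23 {A B p q c : ℝ} (h : Opt A B p q c) : |-(2*c*(B-A)*(1-φ)) - ((-87643)/10^5)| ≤ 1/10^5 := by
  obtain ⟨hA, hB, hp, hq, hc, hf⟩ := apx h
  exact Ap.fin (Ap.neg (Ap.mul (Ap.mul (Ap.mul (Ap.const 2) hc (by norm_num) (by norm_num) (by norm_num) (by norm_num)) (Ap.sub hB hA) (by norm_num) (by norm_num) (by norm_num) (by norm_num)) (Ap.sub (Ap.const 1) hf) (by norm_num) (by norm_num) (by norm_num) (by norm_num))) (by norm_num) (by norm_num)

lemma x24 {A B p q c : ℝ} (h : Opt A B p q c) : |-(2*c*(B-A)*((2-φ)*p+q)) - ((100542)/10^5)| ≤ 1/10^5 := by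
  obtain ⟨hA, hB, hp, hq, hc, hf⟩ := apx h
  exact Ap.fin (Ap.neg (Ap.mul (Ap.mul (Ap.mul (Ap.const 2) hc (by norm_num) (by norm_num) (by norm_num) (by norm_num)) (Ap.sub hB hA) (by norm_num) (by norm_num) (by norm_num) (by norm_num)) (Ap.add (Ap.mul (Ap.sub (Ap.const 2) hf) hp (by norm_num) (by norm_num) (by norm_num) (by norm_num)) hq) (by norm_num) (by norm_num) (by norm_num) (by norm_num))) (by norm_num) (by norm_num)

lemma x25 {A B p q c : ℝ} (h : Opt A B p q c) : |2*c*((A+B)*(1-φ)+(1)*((2-φ)*p+q)) - ((-10097)/10^5)| ≤ 1/10^5 := by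
  obtain ⟨hA, hB, hp, hq, hc, hf⟩ := apx h
  exact Ap.fin (Ap.mul (Ap.mul (Ap.const 2) hc (by norm_num) (by norm_num) (by norm_num) (by norm_num)) (Ap.add (Ap.mul (Ap.add hA hB) (Ap.sub (Ap.const 1) hf) (by norm_num) (by norm_num) (by norm_num) (by norm_num)) (Ap.mul (Ap.const 1) (Ap.add (Ap.mul (Ap.sub (Ap.const 2) hf) hp (by norm_num) (by norm_num) (by norm_num) (by norm_num)) hq) (by norm_num) (by norm_num) (by norm_num) (by norm_num))) (by norm_num) (by norm_num) (by norm_num) (by norm_num)) (by norm_num) (by norm_num)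

lemma x31 {A B p q c : ℝ} (h : Opt A B p q c) : |((-((φ-1)*p))-c*(-(φ-1)))*((2-φ)*q-p)-((-((φ-1)*q))-c*(φ*B))*((2-φ)*p+q) - ((42228)/10^5)| ≤ 1/10^5 := by
  obtain ⟨hA, hB, hp, hq, hc, hf⟩ := apx h
  exact Ap.fin (Ap.sub (Ap.mul (Ap.sub (Ap.neg (Ap.mul (Ap.sub hf (Ap.const 1)) hp (by norm_num) (by norm_num) (by norm_num) (by norm_num))) (Ap.mul hc (Ap.neg (Ap.sub hf (Ap.const 1))) (by norm_num) (by norm_num) (by norm_num) (by norm_num))) (Ap.sub (Ap.mul (Ap.sub (Ap.const 2) hf) hq (by norm_num) (by norm_num) (by norm_num) (by norm_num)) hp) (by norm_num) (by norm_num) (by norm_num) (by norm_num)) (Ap.mul (Ap.sub (Ap.neg (Ap.mul (Ap.sub hf (Ap.const 1)) hq (by norm_num) (by norm_num) (by norm_num) (by norm_num))) (Ap.mul hc (Ap.mul hf hB (by norm_num) (by norm_num) (by norm_num) (by norm_num)) (by norm_num) (by norm_num) (by norm_num) (by norm_num))) (Ap.add (Ap.mul (Ap.sub (Ap.const 2) hf) hp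 (by norm_num) (by norm_num) (by norm_num) (by norm_num)) hq) (by norm_num) (by norm_num) (by norm_num) (by norm_num))) (by norm_num) (by norm_num)

lemma x32 {A B p q c : ℝ} (h : Opt A B p q c) : |((-((φ-1)*q))-c*(φ*B))*(φ-1)-((φ)-c*(φ*A))*((2-φ)*q-p) - ((-36811)/10^5)| ≤ 1/10^5 := by
  obtain ⟨hA, hB, hp, hq, hc, hf⟩ := apx h
  exact Ap.fin (Ap.sub (Ap.mul (Ap.sub (Ap.neg (Ap.mul (Ap.sub hf (Ap.const 1)) hq (by norm_num) (by norm_num) (by norm_num) (by norm_num))) (Ap.mul hc (Ap.mul hf hB (by norm_num) (by norm_num) (by norm_num) (by norm_num)) (by norm_num) (by norm_num) (by norm_num) (by norm_num))) (Ap.sub hf (Ap.const 1)) (by norm_num) (by norm_num) (by norm_num) (by norm_num)) (Ap.mul (Ap.sub hf (Ap.mul hc (Ap.mul hf hA (by norm_num) (by norm_num) (by norm_num) (by norm_num)) (by norm_num) (by norm_num) (by norm_num) (by norm_num))) (Ap.sub (Ap.mul (Ap.sub (Ap.const 2) hf) hq (by norm_num)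 (by norm_num) (by norm_num) (by norm_num)) hp) (by norm_num) (by norm_num) (by norm_num) (by norm_num))) (by norm_num) (by norm_num)

lemma x33 {A B p q c : ℝ} (h : Opt A B p q c) : |-(2*c*(φ*B)*(φ-1)) - ((-53224)/10^5)| ≤ 1/10^5 := by
  obtain ⟨hA, hB, hp, hq, hc, hf⟩ := apx h
  exact Ap.fin (Ap.neg (Ap.mul (Ap.mul (Ap.mul (Ap.const 2) hc (by norm_num) (by norm_num) (by norm_num) (by norm_num)) (Ap.mul hf hB (by norm_num) (by norm_num) (by norm_num) (by norm_num)) (by norm_num) (by norm_num) (by norm_num) (by norm_num)) (Ap.sub hf (Ap.const 1)) (by norm_num) (by norm_num) (by norm_num) (by norm_num))) (by norm_num) (by norm_num)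

lemma x34 {A B p q c : ℝ} (h : Opt A B p q c) : |-(2*c*(φ*B)*((2-φ)*p+q)) - ((-61057)/10^5)| ≤ 1/10^5 := by
  obtain ⟨hA, hB, hp, hq, hc, hf⟩ := apx h
  exact Ap.fin (Ap.neg (Ap.mul (Ap.mul (Ap.mul (Ap.const 2) hc (by norm_num) (by norm_num) (by norm_num) (by norm_num)) (Ap.mul hf hB (by norm_num) (by norm_num) (by norm_num) (by norm_num)) (by norm_num) (by norm_num) (by norm_num) (by norm_num)) (Ap.add (Ap.mul (Ap.sub (Ap.const 2) hf) hp (by norm_num) (by norm_num) (by norm_num) (by norm_num)) hq) (by norm_num) (by norm_num) (by norm_num) (by norm_num))) (by norm_num) (by norm_num)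

lemma x35 {A B p q c : ℝ} (h : Opt A B p q c) : |2*c*((φ*A)*(φ-1)+(-(φ-1))*((2-φ)*p+q)) - ((106448)/10^5)| ≤ 1/10^5 := by
  obtain ⟨hA, hB, hp, hq, hc, hf⟩ := apx h
  exact Ap.fin (Ap.mul (Ap.mul (Ap.const 2) hc (by norm_num) (by norm_num) (by norm_num) (by norm_num)) (Ap.add (Ap.mul (Ap.mul hf hA (by norm_num) (by norm_num) (by norm_num) (by norm_num)) (Ap.sub hf (Ap.const 1)) (by norm_num) (by norm_num) (by norm_num) (by norm_num)) (Ap.mul (Ap.neg (Ap.sub hf (Ap.const 1))) (Ap.add (Ap.mul (Ap.sub (Ap.const 2) hf) hp (by norm_num) (by norm_num) (by norm_num) (by norm_num)) hq) (by norm_num) (by norm_num) (by norm_num) (by norm_num))) (by norm_num) (by norm_num) (by norm_num) (by norm_num)) (by norm_num) (by norm_num)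

lemma x41 {A B p q c : ℝ} (h : Opt A B p q c) : |((-((φ-1)*p))-c*(-1))*((2-φ)*q-p)-((-((φ-1)*q))-c*(B-A))*((2-φ)*p+q) - ((-69537)/10^5)| ≤ 1/10^5 := by
  obtain ⟨hA, hB, hp, hq, hc, hf⟩ := apx h
  exact Ap.fin (Ap.sub (Ap.mul (Ap.sub (Ap.neg (Ap.mul (Ap.sub hf (Ap.const 1)) hp (by norm_num) (by norm_num) (by norm_num) (by norm_num))) (Ap.mul hc (Ap.neg (Ap.const 1)) (by norm_num) (by norm_num) (by norm_num) (by norm_num))) (Ap.sub (Ap.mul (Ap.sub (Ap.const 2) hf) hq (by norm_num) (by norm_num) (by norm_num) (by norm_num)) hp) (by norm_num) (by norm_num) (by norm_num) (by norm_num)) (Ap.mul (Ap.sub (Ap.neg (Ap.mul (Ap.sub hf (Ap.const 1)) hq (by norm_num) (by norm_num) (by norm_num) (by norm_num))) (Ap.mul hc (Ap.sub hB hA) (by norm_num) (by norm_num) (by norm_num) (by norm_num))) (Ap.add (Ap.mul (Ap.sub (Ap.const 2) hf) hp (by norm_num) (by norm_num) (by norm_num) (by norm_num)) hq) (by norm_num)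 (by norm_num) (by norm_num) (by norm_num))) (by norm_num) (by norm_num)

lemma x42 {A B p q c : ℝ} (h : Opt A B p q c) : |((-((φ-1)*q))-c*(B-A))*(φ-1)-((φ)-c*(A+B))*((2-φ)*q-p) - ((60616)/10^5)| ≤ 1/10^5 := by
  obtain ⟨hA, hB, hp, hq, hc, hf⟩ := apx h
  exact Ap.fin (Ap.sub (Ap.mul (Ap.sub (Ap.neg (Ap.mul (Ap.sub hf (Ap.const 1)) hq (by norm_num) (by norm_num) (by norm_num) (by norm_num))) (Ap.mul hc (Ap.sub hB hA) (by norm_num) (by norm_num) (by norm_num) (by norm_num))) (Ap.sub hf (Ap.const 1)) (by norm_num) (by norm_num) (by norm_num) (by norm_num)) (Ap.mul (Ap.sub hf (Ap.mul hc (Ap.add hA hB) (by norm_num) (by norm_num) (by norm_num) (by norm_num))) (Ap.sub (Ap.mul (Ap.sub (Ap.const 2) hf) hq (by norm_num) (by norm_num) (by norm_num) (by norm_num)) hp) (by norm_num) (by norm_num) (by norm_num) (by norm_num))) (by norm_num) (by norm_num)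

lemma x43 {A B p q c : ℝ} (h : Opt A B p q c) : |-(2*c*(B-A)*(φ-1)) - ((87643)/10^5)| ≤ 1/10^5 := by
  obtain ⟨hA, hB, hp, hq, hc, hf⟩ := apx h
  exact Ap.fin (Ap.neg (Ap.mul (Ap.mul (Ap.mul (Ap.const 2) hc (by norm_num) (by norm_num) (by norm_num) (by norm_num)) (Ap.sub hB hA) (by norm_num) (by norm_num) (by norm_num) (by norm_num)) (Ap.sub hf (Ap.const 1)) (by norm_num) (by norm_num) (by norm_num) (by norm_num))) (by norm_num) (by norm_num)

lemma x44 {A B p q c : ℝ} (h : Opt A B p q c) : |-(2*c*(B-A)*((2-φ)*p+q)) - ((100542)/10^5)| ≤ 1/10^5 := by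
  obtain ⟨hA, hB, hp, hq, hc, hf⟩ := apx h
  exact Ap.fin (Ap.neg (Ap.mul (Ap.mul (Ap.mul (Ap.const 2) hc (by norm_num) (by norm_num) (by norm_num) (by norm_num)) (Ap.sub hB hA) (by norm_num) (by norm_num) (by norm_num) (by norm_num)) (Ap.add (Ap.mul (Ap.sub (Ap.const 2) hf) hp (by norm_num) (by norm_num) (by norm_num) (by norm_num)) hq) (by norm_num) (by norm_num) (by norm_num) (by norm_num))) (by norm_num) (by norm_num)

lemma x45 {A B p q c : ℝ} (h : Opt A B p q c) : |2*c*((A+B)*(φ-1)+(-1)*((2-φ)*p+q)) - ((10097)/10^5)| ≤ 1/10^5 := by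
  obtain ⟨hA, hB, hp, hq, hc, hf⟩ := apx h
  exact Ap.fin (Ap.mul (Ap.mul (Ap.const 2) hc (by norm_num) (by norm_num) (by norm_num) (by norm_num)) (Ap.add (Ap.mul (Ap.add hA hB) (Ap.sub hf (Ap.const 1)) (by norm_num) (by norm_num) (by norm_num) (by norm_num)) (Ap.mul (Ap.neg (Ap.const 1)) (Ap.add (Ap.mul (Ap.sub (Ap.const 2) hf) hp (by norm_num) (by norm_num) (by norm_num) (by norm_num)) hq) (by norm_num) (by norm_num) (by norm_num) (by norm_num))) (by norm_num) (by norm_num) (by norm_num) (by norm_num)) (by norm_num) (by norm_num)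

lemma q1 {A B p q c : ℝ} (h : Opt A B p q c) : |p*(((φ)-c*(φ*A))*((2-φ)*p+q)-(((φ-1)*p)+c*(φ-1))*(1-φ))+(φ*q)*(((φ)-c*(A+B))*((2-φ)*p+q)-(((φ-1)*p)+c*(1))*(1-φ))+p*(((φ)-c*(φ*A))*((2-φ)*p+q)-((-((φ-1)*p))+c*(-(φ-1)))*(φ-1))+(φ*q)*(((φ)-c*(A+B))*((2-φ)*p+q)-((-((φ-1)*p))+c*(-1))*(φ-1)) - ((286667)/10^5)| ≤ 1/10^5 := by
  obtain ⟨hA, hB, hp, hq, hc, hf⟩ := apx h
  exact Ap.fin (Ap.add (Ap.add (Ap.add (Ap.mul hp (Ap.sub (Ap.mul (Ap.sub hf (Ap.mul hc (Ap.mul hf hA (by norm_num) (by norm_num) (by norm_num) (by norm_num)) (by norm_num) (by norm_num) (by norm_num) (by norm_num))) (Ap.add (Ap.mul (Ap.sub (Ap.const 2) hf) hp (by norm_num) (by norm_num) (by norm_num) (by norm_num)) hq) (by norm_num) (by norm_num) (by norm_num) (by norm_num)) (Ap.mul (Ap.add (Ap.mul (Ap.sub hf (Ap.const 1)) hp (by norm_num) (by norm_num) (by norm_num) (by norm_num)) (Ap.mul hc (Ap.sub hf (Ap.const 1)) (by norm_num) (by norm_num)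 (by norm_num) (by norm_num))) (Ap.sub (Ap.const 1) hf) (by norm_num) (by norm_num) (by norm_num) (by norm_num))) (by norm_num) (by norm_num) (by norm_num) (by norm_num)) (Ap.mul (Ap.mul hf hq (by norm_num) (by norm_num) (by norm_num) (by norm_num)) (Ap.sub (Ap.mul (Ap.sub hf (Ap.mul hc (Ap.add hA hB) (by norm_num) (by norm_num) (by norm_num) (by norm_num))) (Ap.add (Ap.mul (Ap.sub (Ap.const 2) hf) hp (by norm_num) (by norm_num) (by norm_num) (by norm_num)) hq) (by norm_num) (by norm_num) (by norm_num) (by norm_num)) (Ap.mul (Ap.add (Ap.mul (Ap.sub hf (Ap.const 1)) hp (by norm_num) (by norm_num) (by norm_num) (by norm_num)) (Ap.mul hc (Ap.const 1) (by norm_num) (by norm_num) (by norm_num) (by norm_num))) (Ap.sub (Ap.const 1) hf) (by norm_num) (by norm_num) (by norm_num) (by norm_num))) (by norm_num) (by norm_num) (by norm_num) (by norm_num))) (Ap.mul hp (Ap.sub (Ap.mul (Ap.sub hf (Ap.mul hc (Ap.mul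 hf hA (by norm_num) (by norm_num) (by norm_num) (by norm_num)) (by norm_num) (by norm_num) (by norm_num) (by norm_num))) (Ap.add (Ap.mul (Ap.sub (Ap.const 2) hf) hp (by norm_num) (by norm_num) (by norm_num) (by norm_num)) hq) (by norm_num) (by norm_num) (by norm_num) (by norm_num)) (Ap.mul (Ap.add (Ap.neg (Ap.mul (Ap.sub hf (Ap.const 1)) hp (by norm_num) (by norm_num) (by norm_num) (by norm_num))) (Ap.mul hc (Ap.neg (Ap.sub hf (Ap.const 1))) (by norm_num) (by norm_num) (by norm_num) (by norm_num))) (Ap.sub hf (Ap.const 1)) (by norm_num) (by norm_num) (by norm_num) (by norm_num))) (by norm_num) (by norm_num) (by norm_num) (by norm_num))) (Ap.mul (Ap.mul hf hq (by norm_num) (by norm_num) (by norm_num) (by norm_num)) (Ap.sub (Ap.mul (Ap.sub hf (Ap.mul hc (Ap.add hA hB) (by norm_num) (by norm_num) (by norm_num) (by norm_num))) (Ap.add (Ap.mul (Ap.sub (Ap.const 2) hf) hp (by norm_num) (by norm_num)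 (by norm_num) (by norm_num)) hq) (by norm_num) (by norm_num) (by norm_num) (by norm_num)) (Ap.mul (Ap.add (Ap.neg (Ap.mul (Ap.sub hf (Ap.const 1)) hp (by norm_num) (by norm_num) (by norm_num) (by norm_num))) (Ap.mul hc (Ap.neg (Ap.const 1)) (by norm_num) (by norm_num) (by norm_num) (by norm_num))) (Ap.sub hf (Ap.const 1)) (by norm_num) (by norm_num) (by norm_num) (by norm_num))) (by norm_num) (by norm_num) (by norm_num) (by norm_num))) (by norm_num) (by norm_num)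

lemma q2 {A B p q c : ℝ} (h : Opt A B p q c) : |p*(((φ)+c*(φ*A))*((2-φ)*p+q)-(((φ-1)*p)-c*(φ-1))*(1-φ))+(φ*q)*(((φ)+c*(A+B))*((2-φ)*p+q)-(((φ-1)*p)-c*(1))*(1-φ))+p*(((φ)+c*(φ*A))*((2-φ)*p+q)-((-((φ-1)*p))-c*(-(φ-1)))*(φ-1))+(φ*q)*(((φ)+c*(A+B))*((2-φ)*p+q)-((-((φ-1)*p))-c*(-1))*(φ-1)) - ((619085)/10^5)| ≤ 1/10^5 := by
  obtain ⟨hA, hB, hp, hq, hc, hf⟩ := apx h
  exact Ap.fin (Ap.add (Ap.add (Ap.add (Ap.mul hp (Ap.sub (Ap.mul (Ap.add hf (Ap.mul hc (Ap.mul hf hA (by norm_num) (by norm_num) (by norm_num) (by norm_num)) (by norm_num) (by norm_num) (by norm_num) (by norm_num))) (Ap.add (Ap.mul (Ap.sub (Ap.const 2) hf) hp (by norm_num) (by norm_num) (by norm_num) (by norm_num)) hq) (by norm_num) (by norm_num) (by norm_num) (by norm_num)) (Ap.mul (Ap.sub (Ap.mul (Ap.sub hf (Ap.const 1)) hp (by norm_num) (by norm_num) (by norm_num) (by norm_num)) (Ap.mul hc (Ap.sub hf (Ap.const 1)) (by norm_num) (by norm_num)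 (by norm_num) (by norm_num))) (Ap.sub (Ap.const 1) hf) (by norm_num) (by norm_num) (by norm_num) (by norm_num))) (by norm_num) (by norm_num) (by norm_num) (by norm_num)) (Ap.mul (Ap.mul hf hq (by norm_num) (by norm_num) (by norm_num) (by norm_num)) (Ap.sub (Ap.mul (Ap.add hf (Ap.mul hc (Ap.add hA hB) (by norm_num) (by norm_num) (by norm_num) (by norm_num))) (Ap.add (Ap.mul (Ap.sub (Ap.const 2) hf) hp (by norm_num) (by norm_num) (by norm_num) (by norm_num)) hq) (by norm_num) (by norm_num) (by norm_num) (by norm_num)) (Ap.mul (Ap.sub (Ap.mul (Ap.sub hf (Ap.const 1)) hp (by norm_num) (by norm_num) (by norm_num) (by norm_num)) (Ap.mul hc (Ap.const 1) (by norm_num) (by norm_num) (by norm_num) (by norm_num))) (Ap.sub (Ap.const 1) hf) (by norm_num) (by norm_num) (by norm_num) (by norm_num))) (by norm_num) (by norm_num) (by norm_num) (by norm_num))) (Ap.mul hp (Ap.sub (Ap.mul (Ap.add hf (Ap.mul hc (Ap.mul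 hf hA (by norm_num) (by norm_num) (by norm_num) (by norm_num)) (by norm_num) (by norm_num) (by norm_num) (by norm_num))) (Ap.add (Ap.mul (Ap.sub (Ap.const 2) hf) hp (by norm_num) (by norm_num) (by norm_num) (by norm_num)) hq) (by norm_num) (by norm_num) (by norm_num) (by norm_num)) (Ap.mul (Ap.sub (Ap.neg (Ap.mul (Ap.sub hf (Ap.const 1)) hp (by norm_num) (by norm_num) (by norm_num) (by norm_num))) (Ap.mul hc (Ap.neg (Ap.sub hf (Ap.const 1))) (by norm_num) (by norm_num) (by norm_num) (by norm_num))) (Ap.sub hf (Ap.const 1)) (by norm_num) (by norm_num) (by norm_num) (by norm_num))) (by norm_num) (by norm_num) (by norm_num) (by norm_num))) (Ap.mul (Ap.mul hf hq (by norm_num) (by norm_num) (by norm_num) (by norm_num)) (Ap.sub (Ap.mul (Ap.add hf (Ap.mul hc (Ap.add hA hB) (by norm_num) (by norm_num) (by norm_num) (by norm_num))) (Ap.add (Ap.mul (Ap.sub (Ap.const 2) hf) hp (by norm_num) (by norm_num)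 (by norm_num) (by norm_num)) hq) (by norm_num) (by norm_num) (by norm_num) (by norm_num)) (Ap.mul (Ap.sub (Ap.neg (Ap.mul (Ap.sub hf (Ap.const 1)) hp (by norm_num) (by norm_num) (by norm_num) (by norm_num))) (Ap.mul hc (Ap.neg (Ap.const 1)) (by norm_num) (by norm_num) (by norm_num) (by norm_num))) (Ap.sub hf (Ap.const 1)) (by norm_num) (by norm_num) (by norm_num) (by norm_num))) (by norm_num) (by norm_num) (by norm_num) (by norm_num))) (by norm_num) (by norm_num)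

lemma q3 {A B p q c : ℝ} (h : Opt A B p q c) : |p*(((φ)+c*(φ*A))*((2-φ)*p+q)-(((φ-1)*p)+c*(φ-1))*(1-φ))+(φ*q)*(((φ)+c*(A+B))*((2-φ)*p+q)-(((φ-1)*p)+c*(1))*(1-φ))+p*(((φ)+c*(φ*A))*((2-φ)*p+q)-((-((φ-1)*p))+c*(-(φ-1)))*(φ-1))+(φ*q)*(((φ)+c*(A+B))*((2-φ)*p+q)-((-((φ-1)*p))+c*(-1))*(φ-1)) - ((905752)/10^5)| ≤ 1/10^5 := by
  obtain ⟨hA, hB, hp, hq, hc, hf⟩ := apx h
  exact Ap.fin (Ap.add (Ap.add (Ap.add (Ap.mul hp (Ap.sub (Ap.mul (Ap.add hf (Ap.mul hc (Ap.mul hf hA (by norm_num) (by norm_num) (by norm_num) (by norm_num)) (by norm_num) (by norm_num) (by norm_num) (by norm_num))) (Ap.add (Ap.mul (Ap.sub (Ap.const 2) hf) hp (by norm_num) (by norm_num) (by norm_num) (by norm_num)) hq) (by norm_num) (by norm_num) (by norm_num) (by norm_num)) (Ap.mul (Ap.add (Ap.mul (Ap.sub hf (Ap.const 1)) hp (by norm_num) (by norm_num) (by norm_num) (by norm_num)) (Ap.mul hc (Ap.sub hf (Ap.const 1)) (by norm_num) (by norm_num)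 (by norm_num) (by norm_num))) (Ap.sub (Ap.const 1) hf) (by norm_num) (by norm_num) (by norm_num) (by norm_num))) (by norm_num) (by norm_num) (by norm_num) (by norm_num)) (Ap.mul (Ap.mul hf hq (by norm_num) (by norm_num) (by norm_num) (by norm_num)) (Ap.sub (Ap.mul (Ap.add hf (Ap.mul hc (Ap.add hA hB) (by norm_num) (by norm_num) (by norm_num) (by norm_num))) (Ap.add (Ap.mul (Ap.sub (Ap.const 2) hf) hp (by norm_num) (by norm_num) (by norm_num) (by norm_num)) hq) (by norm_num) (by norm_num) (by norm_num) (by norm_num)) (Ap.mul (Ap.add (Ap.mul (Ap.sub hf (Ap.const 1)) hp (by norm_num) (by norm_num) (by norm_num) (by norm_num)) (Ap.mul hc (Ap.const 1) (by norm_num) (by norm_num) (by norm_num) (by norm_num))) (Ap.sub (Ap.const 1) hf) (by norm_num) (by norm_num) (by norm_num) (by norm_num))) (by norm_num) (by norm_num) (by norm_num) (by norm_num))) (Ap.mul hp (Ap.sub (Ap.mul (Ap.add hf (Ap.mul hc (Ap.mul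 hf hA (by norm_num) (by norm_num) (by norm_num) (by norm_num)) (by norm_num) (by norm_num) (by norm_num) (by norm_num))) (Ap.add (Ap.mul (Ap.sub (Ap.const 2) hf) hp (by norm_num) (by norm_num) (by norm_num) (by norm_num)) hq) (by norm_num) (by norm_num) (by norm_num) (by norm_num)) (Ap.mul (Ap.add (Ap.neg (Ap.mul (Ap.sub hf (Ap.const 1)) hp (by norm_num) (by norm_num) (by norm_num) (by norm_num))) (Ap.mul hc (Ap.neg (Ap.sub hf (Ap.const 1))) (by norm_num) (by norm_num) (by norm_num) (by norm_num))) (Ap.sub hf (Ap.const 1)) (by norm_num) (by norm_num) (by norm_num) (by norm_num))) (by norm_num) (by norm_num) (by norm_num) (by norm_num))) (Ap.mul (Ap.mul hf hq (by norm_num) (by norm_num) (by norm_num) (by norm_num)) (Ap.sub (Ap.mul (Ap.add hf (Ap.mul hc (Ap.add hA hB) (by norm_num) (by norm_num) (by norm_num) (by norm_num))) (Ap.add (Ap.mul (Ap.sub (Ap.const 2) hf) hp (by norm_num) (by norm_num)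 (by norm_num) (by norm_num)) hq) (by norm_num) (by norm_num) (by norm_num) (by norm_num)) (Ap.mul (Ap.add (Ap.neg (Ap.mul (Ap.sub hf (Ap.const 1)) hp (by norm_num) (by norm_num) (by norm_num) (by norm_num))) (Ap.mul hc (Ap.neg (Ap.const 1)) (by norm_num) (by norm_num) (by norm_num) (by norm_num))) (Ap.sub hf (Ap.const 1)) (by norm_num) (by norm_num) (by norm_num) (by norm_num))) (by norm_num) (by norm_num) (by norm_num) (by norm_num))) (by norm_num) (by norm_num)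

lemma q4 {A B p q c : ℝ} (h : Opt A B p q c) : |p*(2*c*((φ*A)*(1-φ)-(φ-1)*((2-φ)*p+q)))+(φ*q)*(2*c*((A+B)*(1-φ)-(1)*((2-φ)*p+q)))+p*(2*c*((φ*A)*(φ-1)-(-(φ-1))*((2-φ)*p+q)))+(φ*q)*(2*c*((A+B)*(φ-1)-(-1)*((2-φ)*p+q))) - ((0)/10^5)| ≤ 1/10^5 := by
  obtain ⟨hA, hB, hp, hq, hc, hf⟩ := apx h
  exact Ap.fin (Ap.add (Ap.add (Ap.add (Ap.mul hp (Ap.mul (Ap.mul (Ap.const 2) hc (by norm_num) (by norm_num) (by norm_num) (by norm_num)) (Ap.sub (Ap.mul (Ap.mul hf hA (by norm_num) (by norm_num) (by norm_num) (by norm_num)) (Ap.sub (Ap.const 1) hf) (by norm_num) (by norm_num) (by norm_num) (by norm_num)) (Ap.mul (Ap.sub hf (Ap.const 1)) (Ap.add (Ap.mul (Ap.sub (Ap.const 2) hf) hp (by norm_num) (by norm_num) (by norm_num) (by norm_num)) hq) (by norm_num) (by norm_num) (by norm_num) (by norm_num))) (by norm_num) (by norm_num) (by norm_num) (by norm_num)) (by norm_num) (by norm_num) (by norm_num) (by norm_num))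 (Ap.mul (Ap.mul hf hq (by norm_num) (by norm_num) (by norm_num) (by norm_num)) (Ap.mul (Ap.mul (Ap.const 2) hc (by norm_num) (by norm_num) (by norm_num) (by norm_num)) (Ap.sub (Ap.mul (Ap.add hA hB) (Ap.sub (Ap.const 1) hf) (by norm_num) (by norm_num) (by norm_num) (by norm_num)) (Ap.mul (Ap.const 1) (Ap.add (Ap.mul (Ap.sub (Ap.const 2) hf) hp (by norm_num) (by norm_num) (by norm_num) (by norm_num)) hq) (by norm_num) (by norm_num) (by norm_num) (by norm_num))) (by norm_num) (by norm_num) (by norm_num) (by norm_num)) (by norm_num) (by norm_num) (by norm_num) (by norm_num))) (Ap.mul hp (Ap.mul (Ap.mul (Ap.const 2) hc (by norm_num) (by norm_num) (by norm_num) (by norm_num)) (Ap.sub (Ap.mul (Ap.mul hf hA (by norm_num) (by norm_num) (by norm_num) (by norm_num)) (Ap.sub hf (Ap.const 1)) (by norm_num) (by norm_num) (by norm_num) (by norm_num)) (Ap.mul (Ap.neg (Ap.sub hf (Ap.const 1))) (Ap.add (Ap.mul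 (Ap.sub (Ap.const 2) hf) hp (by norm_num) (by norm_num) (by norm_num) (by norm_num)) hq) (by norm_num) (by norm_num) (by norm_num) (by norm_num))) (by norm_num) (by norm_num) (by norm_num) (by norm_num)) (by norm_num) (by norm_num) (by norm_num) (by norm_num))) (Ap.mul (Ap.mul hf hq (by norm_num) (by norm_num) (by norm_num) (by norm_num)) (Ap.mul (Ap.mul (Ap.const 2) hc (by norm_num) (by norm_num) (by norm_num) (by norm_num)) (Ap.sub (Ap.mul (Ap.add hA hB) (Ap.sub hf (Ap.const 1)) (by norm_num) (by norm_num) (by norm_num) (by norm_num)) (Ap.mul (Ap.neg (Ap.const 1)) (Ap.add (Ap.mul (Ap.sub (Ap.const 2) hf) hp (by norm_num) (by norm_num) (by norm_num) (by norm_num)) hq) (by norm_num) (by norm_num) (by norm_num) (by norm_num))) (by norm_num) (by norm_num) (by norm_num) (by norm_num)) (by norm_num) (by norm_num) (by norm_num) (by norm_num))) (by norm_num) (by norm_num)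

lemma q5 {A B p q c : ℝ} (h : Opt A B p q c) : |p*(-(2*c*(φ*B)*((2-φ)*p+q)))+(φ*q)*(-(2*c*(B-A)*((2-φ)*p+q)))+p*(-(2*c*(φ*B)*((2-φ)*p+q)))+(φ*q)*(-(2*c*(B-A)*((2-φ)*p+q))) - ((0)/10^5)| ≤ 1/10^5 := by
  obtain ⟨hA, hB, hp, hq, hc, hf⟩ := apx h
  exact Ap.fin (Ap.add (Ap.add (Ap.add (Ap.mul hp (Ap.neg (Ap.mul (Ap.mul (Ap.mul (Ap.const 2) hc (by norm_num) (by norm_num) (by norm_num) (by norm_num)) (Ap.mul hf hB (by norm_num) (by norm_num) (by norm_num) (by norm_num)) (by norm_num) (by norm_num) (by norm_num) (by norm_num)) (Ap.add (Ap.mul (Ap.sub (Ap.const 2) hf) hp (by norm_num) (by norm_num) (by norm_num) (by norm_num)) hq) (by norm_num) (by norm_num) (by norm_num) (by norm_num))) (by norm_num) (by norm_num) (by norm_num) (by norm_num)) (Ap.mul (Ap.mul hf hq (by norm_num) (by norm_num) (by norm_num) (by norm_num)) (Ap.neg (Ap.mul (Ap.mul (Ap.mul (Ap.const 2) hc (by norm_num) (by norm_num) (by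 norm_num) (by norm_num)) (Ap.sub hB hA) (by norm_num) (by norm_num) (by norm_num) (by norm_num)) (Ap.add (Ap.mul (Ap.sub (Ap.const 2) hf) hp (by norm_num) (by norm_num) (by norm_num) (by norm_num)) hq) (by norm_num) (by norm_num) (by norm_num) (by norm_num))) (by norm_num) (by norm_num) (by norm_num) (by norm_num))) (Ap.mul hp (Ap.neg (Ap.mul (Ap.mul (Ap.mul (Ap.const 2) hc (by norm_num) (by norm_num) (by norm_num) (by norm_num)) (Ap.mul hf hB (by norm_num) (by norm_num) (by norm_num) (by norm_num)) (by norm_num) (by norm_num) (by norm_num) (by norm_num)) (Ap.add (Ap.mul (Ap.sub (Ap.const 2) hf) hp (by norm_num) (by norm_num) (by norm_num) (by norm_num)) hq) (by norm_num) (by norm_num) (by norm_num) (by norm_num))) (by norm_num) (by norm_num) (by norm_num) (by norm_num))) (Ap.mul (Ap.mul hf hq (by norm_num) (by norm_num) (by norm_num) (by norm_num)) (Ap.neg (Ap.mul (Ap.mul (Ap.mul (Ap.const 2)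 hc (by norm_num) (by norm_num) (by norm_num) (by norm_num)) (Ap.sub hB hA) (by norm_num) (by norm_num) (by norm_num) (by norm_num)) (Ap.add (Ap.mul (Ap.sub (Ap.const 2) hf) hp (by norm_num) (by norm_num) (by norm_num) (by norm_num)) hq) (by norm_num) (by norm_num) (by norm_num) (by norm_num))) (by norm_num) (by norm_num) (by norm_num) (by norm_num))) (by norm_num) (by norm_num)

lemma q6 {A B p q c : ℝ} (h : Opt A B p q c) : |p*(2*c*(φ*B)*(1-φ))+(φ*q)*(2*c*(B-A)*(1-φ))+p*(2*c*(φ*B)*(φ-1))+(φ*q)*(2*c*(B-A)*(φ-1)) - ((0)/10^5)| ≤ 1/10^5 := by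
  obtain ⟨hA, hB, hp, hq, hc, hf⟩ := apx h
  exact Ap.fin (Ap.add (Ap.add (Ap.add (Ap.mul hp (Ap.mul (Ap.mul (Ap.mul (Ap.const 2) hc (by norm_num) (by norm_num) (by norm_num) (by norm_num)) (Ap.mul hf hB (by norm_num) (by norm_num) (by norm_num) (by norm_num)) (by norm_num) (by norm_num) (by norm_num) (by norm_num)) (Ap.sub (Ap.const 1) hf) (by norm_num) (by norm_num) (by norm_num) (by norm_num)) (by norm_num) (by norm_num) (by norm_num) (by norm_num)) (Ap.mul (Ap.mul hf hq (by norm_num) (by norm_num) (by norm_num) (by norm_num)) (Ap.mul (Ap.mul (Ap.mul (Ap.const 2) hc (by norm_num) (by norm_num) (by norm_num) (by norm_num)) (Ap.sub hB hA) (by norm_num) (by norm_num) (by norm_num) (by norm_num)) (Ap.sub (Ap.const 1) hf) (by norm_num) (by norm_num) (by norm_num) (by norm_num)) (by norm_num) (by norm_num) (by norm_num) (by norm_num))) (Ap.mul hp (Ap.mul (Ap.mul (Ap.mul (Ap.const 2) hc (by norm_num)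 (by norm_num) (by norm_num) (by norm_num)) (Ap.mul hf hB (by norm_num) (by norm_num) (by norm_num) (by norm_num)) (by norm_num) (by norm_num) (by norm_num) (by norm_num)) (Ap.sub hf (Ap.const 1)) (by norm_num) (by norm_num) (by norm_num) (by norm_num)) (by norm_num) (by norm_num) (by norm_num) (by norm_num))) (Ap.mul (Ap.mul hf hq (by norm_num) (by norm_num) (by norm_num) (by norm_num)) (Ap.mul (Ap.mul (Ap.mul (Ap.const 2) hc (by norm_num) (by norm_num) (by norm_num) (by norm_num)) (Ap.sub hB hA) (by norm_num) (by norm_num) (by norm_num) (by norm_num)) (Ap.sub hf (Ap.const 1)) (by norm_num) (by norm_num) (by norm_num) (by norm_num)) (by norm_num) (by norm_num) (by norm_num) (by norm_num))) (by norm_num) (by norm_num)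

lemma q7 {A B p q c : ℝ} (h : Opt A B p q c) : |p*(2*c*((φ*B)*((2-φ)*q-p)+(φ-1)*((2-φ)*p+q)))+(φ*q)*(2*c*((B-A)*((2-φ)*q-p)+(1)*((2-φ)*p+q)))+p*(2*c*((φ*B)*((2-φ)*q-p)+(-(φ-1))*((2-φ)*p+q)))+(φ*q)*(2*c*((B-A)*((2-φ)*q-p)+(-1)*((2-φ)*p+q))) - ((0)/10^5)| ≤ 1/10^5 := by
  obtain ⟨hA, hB, hp, hq, hc, hf⟩ := apx h
  exact Ap.fin (Ap.add (Ap.add (Ap.add (Ap.mul hp (Ap.mul (Ap.mul (Ap.const 2) hc (by norm_num) (by norm_num) (by norm_num) (by norm_num)) (Ap.add (Ap.mul (Ap.mul hf hB (by norm_num) (by norm_num) (by norm_num) (by norm_num)) (Ap.sub (Ap.mul (Ap.sub (Ap.const 2) hf) hq (by norm_num) (by norm_num) (by norm_num) (by norm_num)) hp) (by norm_num) (by norm_num) (by norm_num) (by norm_num)) (Ap.mul (Ap.sub hf (Ap.const 1)) (Ap.add (Ap.mul (Ap.sub (Ap.const 2) hf) hp (by norm_num) (by norm_num) (by norm_num) (by norm_num)) hq) (by norm_num) (by norm_num) (by norm_num) (by norm_num))) (by norm_num)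 (by norm_num) (by norm_num) (by norm_num)) (by norm_num) (by norm_num) (by norm_num) (by norm_num)) (Ap.mul (Ap.mul hf hq (by norm_num) (by norm_num) (by norm_num) (by norm_num)) (Ap.mul (Ap.mul (Ap.const 2) hc (by norm_num) (by norm_num) (by norm_num) (by norm_num)) (Ap.add (Ap.mul (Ap.sub hB hA) (Ap.sub (Ap.mul (Ap.sub (Ap.const 2) hf) hq (by norm_num) (by norm_num) (by norm_num) (by norm_num)) hp) (by norm_num) (by norm_num) (by norm_num) (by norm_num)) (Ap.mul (Ap.const 1) (Ap.add (Ap.mul (Ap.sub (Ap.const 2) hf) hp (by norm_num) (by norm_num) (by norm_num) (by norm_num)) hq) (by norm_num) (by norm_num) (by norm_num) (by norm_num))) (by norm_num) (by norm_num) (by norm_num) (by norm_num)) (by norm_num) (by norm_num) (by norm_num) (by norm_num))) (Ap.mul hp (Ap.mul (Ap.mul (Ap.const 2) hc (by norm_num) (by norm_num) (by norm_num) (by norm_num)) (Ap.add (Ap.mul (Ap.mul hf hB (by norm_num) (by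 norm_num) (by norm_num) (by norm_num)) (Ap.sub (Ap.mul (Ap.sub (Ap.const 2) hf) hq (by norm_num) (by norm_num) (by norm_num) (by norm_num)) hp) (by norm_num) (by norm_num) (by norm_num) (by norm_num)) (Ap.mul (Ap.neg (Ap.sub hf (Ap.const 1))) (Ap.add (Ap.mul (Ap.sub (Ap.const 2) hf) hp (by norm_num) (by norm_num) (by norm_num) (by norm_num)) hq) (by norm_num) (by norm_num) (by norm_num) (by norm_num))) (by norm_num) (by norm_num) (by norm_num) (by norm_num)) (by norm_num) (by norm_num) (by norm_num) (by norm_num))) (Ap.mul (Ap.mul hf hq (by norm_num) (by norm_num) (by norm_num) (by norm_num)) (Ap.mul (Ap.mul (Ap.const 2) hc (by norm_num) (by norm_num) (by norm_num) (by norm_num)) (Ap.add (Ap.mul (Ap.sub hB hA) (Ap.sub (Ap.mul (Ap.sub (Ap.const 2) hf) hq (by norm_num) (by norm_num) (by norm_num) (by norm_num)) hp) (by norm_num) (by norm_num) (by norm_num) (by norm_num)) (Ap.mul (Ap.neg (Ap.const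 1)) (Ap.add (Ap.mul (Ap.sub (Ap.const 2) hf) hp (by norm_num) (by norm_num) (by norm_num) (by norm_num)) hq) (by norm_num) (by norm_num) (by norm_num) (by norm_num))) (by norm_num) (by norm_num) (by norm_num) (by norm_num)) (by norm_num) (by norm_num) (by norm_num) (by norm_num))) (by norm_num) (by norm_num)

lemma q8 {A B p q c : ℝ} (h : Opt A B p q c) : |p*(-(2*c*(φ*A)*((2-φ)*p+q)))+(φ*q)*(-(2*c*(A+B)*((2-φ)*p+q)))+p*(-(2*c*(φ*A)*((2-φ)*p+q)))+(φ*q)*(-(2*c*(A+B)*((2-φ)*p+q))) - ((-619085)/10^5)| ≤ 1/10^5 := by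
  obtain ⟨hA, hB, hp, hq, hc, hf⟩ := apx h
  exact Ap.fin (Ap.add (Ap.add (Ap.add (Ap.mul hp (Ap.neg (Ap.mul (Ap.mul (Ap.mul (Ap.const 2) hc (by norm_num) (by norm_num) (by norm_num) (by norm_num)) (Ap.mul hf hA (by norm_num) (by norm_num) (by norm_num) (by norm_num)) (by norm_num) (by norm_num) (by norm_num) (by norm_num)) (Ap.add (Ap.mul (Ap.sub (Ap.const 2) hf) hp (by norm_num) (by norm_num) (by norm_num) (by norm_num)) hq) (by norm_num) (by norm_num) (by norm_num) (by norm_num))) (by norm_num) (by norm_num) (by norm_num) (by norm_num)) (Ap.mul (Ap.mul hf hq (by norm_num) (by norm_num) (by norm_num) (by norm_num)) (Ap.neg (Ap.mul (Ap.mul (Ap.mul (Ap.const 2) hc (by norm_num) (by norm_num) (by norm_num) (by norm_num)) (Ap.add hA hB) (by norm_num) (by norm_num) (by norm_num) (by norm_num)) (Ap.add (Ap.mul (Ap.sub (Ap.const 2) hf) hp (by norm_num) (by norm_num) (by norm_num) (by norm_num)) hq)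 (by norm_num) (by norm_num) (by norm_num) (by norm_num))) (by norm_num) (by norm_num) (by norm_num) (by norm_num))) (Ap.mul hp (Ap.neg (Ap.mul (Ap.mul (Ap.mul (Ap.const 2) hc (by norm_num) (by norm_num) (by norm_num) (by norm_num)) (Ap.mul hf hA (by norm_num) (by norm_num) (by norm_num) (by norm_num)) (by norm_num) (by norm_num) (by norm_num) (by norm_num)) (Ap.add (Ap.mul (Ap.sub (Ap.const 2) hf) hp (by norm_num) (by norm_num) (by norm_num) (by norm_num)) hq) (by norm_num) (by norm_num) (by norm_num) (by norm_num))) (by norm_num) (by norm_num) (by norm_num) (by norm_num))) (Ap.mul (Ap.mul hf hq (by norm_num) (by norm_num) (by norm_num) (by norm_num)) (Ap.neg (Ap.mul (Ap.mul (Ap.mul (Ap.const 2) hc (by norm_num) (by norm_num) (by norm_num) (by norm_num)) (Ap.add hA hB) (by norm_num) (by norm_num) (by norm_num) (by norm_num)) (Ap.add (Ap.mul (Ap.sub (Ap.const 2) hf) hp (by norm_num) (by norm_num)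 (by norm_num) (by norm_num)) hq) (by norm_num) (by norm_num) (by norm_num) (by norm_num))) (by norm_num) (by norm_num) (by norm_num) (by norm_num))) (by norm_num) (by norm_num)

lemma q9 {A B p q c : ℝ} (h : Opt A B p q c) : |p*(-(2*c*(φ*A)*((2-φ)*q-p)))+(φ*q)*(-(2*c*(A+B)*((2-φ)*q-p)))+p*(-(2*c*(φ*A)*((2-φ)*q-p)))+(φ*q)*(-(2*c*(A+B)*((2-φ)*q-p))) - ((700307)/10^5)| ≤ 1/10^5 := by
  obtain ⟨hA, hB, hp, hq, hc, hf⟩ := apx h
  exact Ap.fin (Ap.add (Ap.add (Ap.add (Ap.mul hp (Ap.neg (Ap.mul (Ap.mul (Ap.mul (Ap.const 2) hc (by norm_num) (by norm_num) (by norm_num) (by norm_num)) (Ap.mul hf hA (by norm_num) (by norm_num) (by norm_num) (by norm_num)) (by norm_num) (by norm_num) (by norm_num) (by norm_num)) (Ap.sub (Ap.mul (Ap.sub (Ap.const 2) hf) hq (by norm_num) (by norm_num) (by norm_num) (by norm_num)) hp) (by norm_num) (by norm_num) (by norm_num) (by norm_num))) (by norm_num) (by norm_num) (by norm_num)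 (by norm_num)) (Ap.mul (Ap.mul hf hq (by norm_num) (by norm_num) (by norm_num) (by norm_num)) (Ap.neg (Ap.mul (Ap.mul (Ap.mul (Ap.const 2) hc (by norm_num) (by norm_num) (by norm_num) (by norm_num)) (Ap.add hA hB) (by norm_num) (by norm_num) (by norm_num) (by norm_num)) (Ap.sub (Ap.mul (Ap.sub (Ap.const 2) hf) hq (by norm_num) (by norm_num) (by norm_num) (by norm_num)) hp) (by norm_num) (by norm_num) (by norm_num) (by norm_num))) (by norm_num) (by norm_num) (by norm_num) (by norm_num))) (Ap.mul hp (Ap.neg (Ap.mul (Ap.mul (Ap.mul (Ap.const 2) hc (by norm_num) (by norm_num) (by norm_num) (by norm_num)) (Ap.mul hf hA (by norm_num) (by norm_num) (by norm_num) (by norm_num)) (by norm_num) (by norm_num) (by norm_num) (by norm_num)) (Ap.sub (Ap.mul (Ap.sub (Ap.const 2) hf) hq (by norm_num) (by norm_num) (by norm_num) (by norm_num)) hp) (by norm_num) (by norm_num) (by norm_num) (by norm_num))) (by norm_num)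 (by norm_num) (by norm_num) (by norm_num))) (Ap.mul (Ap.mul hf hq (by norm_num) (by norm_num) (by norm_num) (by norm_num)) (Ap.neg (Ap.mul (Ap.mul (Ap.mul (Ap.const 2) hc (by norm_num) (by norm_num) (by norm_num) (by norm_num)) (Ap.add hA hB) (by norm_num) (by norm_num) (by norm_num) (by norm_num)) (Ap.sub (Ap.mul (Ap.sub (Ap.const 2) hf) hq (by norm_num) (by norm_num) (by norm_num) (by norm_num)) hp) (by norm_num) (by norm_num) (by norm_num) (by norm_num))) (by norm_num) (by norm_num) (by norm_num) (by norm_num))) (by norm_num) (by norm_num)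

lemma q10 {A B p q c : ℝ} (h : Opt A B p q c) : |p*(-(2*c*(φ-1)*(1-φ)))+(φ*q)*(-(2*c*(1)*(1-φ)))+p*(-(2*c*(-(φ-1))*(φ-1)))+(φ*q)*(-(2*c*(-1)*(φ-1))) - ((286667)/10^5)| ≤ 1/10^5 := by
  obtain ⟨hA, hB, hp, hq, hc, hf⟩ := apx h
  exact Ap.fin (Ap.add (Ap.add (Ap.add (Ap.mul hp (Ap.neg (Ap.mul (Ap.mul (Ap.mul (Ap.const 2) hc (by norm_num) (by norm_num) (by norm_num) (by norm_num)) (Ap.sub hf (Ap.const 1)) (by norm_num) (by norm_num) (by norm_num) (by norm_num)) (Ap.sub (Ap.const 1) hf) (by norm_num) (by norm_num) (by norm_num) (by norm_num))) (by norm_num) (by norm_num) (by norm_num) (by norm_num)) (Ap.mul (Ap.mul hf hq (by norm_num) (by norm_num) (by norm_num) (by norm_num)) (Ap.neg (Ap.mul (Ap.mul (Ap.mul (Ap.const 2) hc (by norm_num) (by norm_num) (by norm_num) (by norm_num)) (Ap.const 1) (by norm_num) (by norm_num) (by norm_num) (by norm_num)) (Ap.sub (Ap.const 1) hf) (by norm_num) (by norm_num)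 (by norm_num) (by norm_num))) (by norm_num) (by norm_num) (by norm_num) (by norm_num))) (Ap.mul hp (Ap.neg (Ap.mul (Ap.mul (Ap.mul (Ap.const 2) hc (by norm_num) (by norm_num) (by norm_num) (by norm_num)) (Ap.neg (Ap.sub hf (Ap.const 1))) (by norm_num) (by norm_num) (by norm_num) (by norm_num)) (Ap.sub hf (Ap.const 1)) (by norm_num) (by norm_num) (by norm_num) (by norm_num))) (by norm_num) (by norm_num) (by norm_num) (by norm_num))) (Ap.mul (Ap.mul hf hq (by norm_num) (by norm_num) (by norm_num) (by norm_num)) (Ap.neg (Ap.mul (Ap.mul (Ap.mul (Ap.const 2) hc (by norm_num) (by norm_num) (by norm_num) (by norm_num)) (Ap.neg (Ap.const 1)) (by norm_num) (by norm_num) (by norm_num) (by norm_num)) (Ap.sub hf (Ap.const 1)) (by norm_num) (by norm_num) (by norm_num) (by norm_num))) (by norm_num) (by norm_num) (by norm_num) (by norm_num))) (by norm_num) (by norm_num)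

lemma q11 {A B p q c : ℝ} (h : Opt A B p q c) : |p*(2*c*((φ*A)*(1-φ)+(φ*B)*((2-φ)*q-p)))+(φ*q)*(2*c*((A+B)*(1-φ)+(B-A)*((2-φ)*q-p)))+p*(2*c*((φ*A)*(φ-1)+(φ*B)*((2-φ)*q-p)))+(φ*q)*(2*c*((A+B)*(φ-1)+(B-A)*((2-φ)*q-p))) - ((0)/10^5)| ≤ 1/10^5 := by
  obtain ⟨hA, hB, hp, hq, hc, hf⟩ := apx h
  exact Ap.fin (Ap.add (Ap.add (Ap.add (Ap.mul hp (Ap.mul (Ap.mul (Ap.const 2) hc (by norm_num) (by norm_num) (by norm_num) (by norm_num)) (Ap.add (Ap.mul (Ap.mul hf hA (by norm_num) (by norm_num) (by norm_num) (by norm_num)) (Ap.sub (Ap.const 1) hf) (by norm_num) (by norm_num) (by norm_num) (by norm_num)) (Ap.mul (Ap.mul hf hB (by norm_num) (by norm_num) (by norm_num) (by norm_num)) (Ap.sub (Ap.mul (Ap.sub (Ap.const 2) hf) hq (by norm_num) (by norm_num) (by norm_num) (by norm_num)) hp) (by norm_num) (by norm_num) (by norm_num) (by norm_num))) (by norm_num) (by norm_num) (by norm_num) (by norm_num)) (by norm_num)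 (by norm_num) (by norm_num) (by norm_num)) (Ap.mul (Ap.mul hf hq (by norm_num) (by norm_num) (by norm_num) (by norm_num)) (Ap.mul (Ap.mul (Ap.const 2) hc (by norm_num) (by norm_num) (by norm_num) (by norm_num)) (Ap.add (Ap.mul (Ap.add hA hB) (Ap.sub (Ap.const 1) hf) (by norm_num) (by norm_num) (by norm_num) (by norm_num)) (Ap.mul (Ap.sub hB hA) (Ap.sub (Ap.mul (Ap.sub (Ap.const 2) hf) hq (by norm_num) (by norm_num) (by norm_num) (by norm_num)) hp) (by norm_num) (by norm_num) (by norm_num) (by norm_num))) (by norm_num) (by norm_num) (by norm_num) (by norm_num)) (by norm_num) (by norm_num) (by norm_num) (by norm_num))) (Ap.mul hp (Ap.mul (Ap.mul (Ap.const 2) hc (by norm_num) (by norm_num) (by norm_num) (by norm_num)) (Ap.add (Ap.mul (Ap.mul hf hA (by norm_num) (by norm_num) (by norm_num) (by norm_num)) (Ap.sub hf (Ap.const 1)) (by norm_num) (by norm_num) (by norm_num) (by norm_num)) (Ap.mul (Ap.mul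 hf hB (by norm_num) (by norm_num) (by norm_num) (by norm_num)) (Ap.sub (Ap.mul (Ap.sub (Ap.const 2) hf) hq (by norm_num) (by norm_num) (by norm_num) (by norm_num)) hp) (by norm_num) (by norm_num) (by norm_num) (by norm_num))) (by norm_num) (by norm_num) (by norm_num) (by norm_num)) (by norm_num) (by norm_num) (by norm_num) (by norm_num))) (Ap.mul (Ap.mul hf hq (by norm_num) (by norm_num) (by norm_num) (by norm_num)) (Ap.mul (Ap.mul (Ap.const 2) hc (by norm_num) (by norm_num) (by norm_num) (by norm_num)) (Ap.add (Ap.mul (Ap.add hA hB) (Ap.sub hf (Ap.const 1)) (by norm_num) (by norm_num) (by norm_num) (by norm_num)) (Ap.mul (Ap.sub hB hA) (Ap.sub (Ap.mul (Ap.sub (Ap.const 2) hf) hq (by norm_num) (by norm_num) (by norm_num) (by norm_num)) hp) (by norm_num) (by norm_num) (by norm_num) (by norm_num))) (by norm_num) (by norm_num) (by norm_num) (by norm_num)) (by norm_num) (by norm_num) (by norm_num)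 (by norm_num))) (by norm_num) (by norm_num)

lemma q12 {A B p q c : ℝ} (h : Opt A B p q c) : |p*(-(2*c*(φ-1)*((2-φ)*q-p)))+(φ*q)*(-(2*c*(1)*((2-φ)*q-p)))+p*(-(2*c*(-(φ-1))*((2-φ)*q-p)))+(φ*q)*(-(2*c*(-1)*((2-φ)*q-p))) - ((0)/10^5)| ≤ 1/10^5 := by
  obtain ⟨hA, hB, hp, hq, hc, hf⟩ := apx h
  exact Ap.fin (Ap.add (Ap.add (Ap.add (Ap.mul hp (Ap.neg (Ap.mul (Ap.mul (Ap.mul (Ap.const 2) hc (by norm_num) (by norm_num) (by norm_num) (by norm_num)) (Ap.sub hf (Ap.const 1)) (by norm_num) (by norm_num) (by norm_num) (by norm_num)) (Ap.sub (Ap.mul (Ap.sub (Ap.const 2) hf) hq (by norm_num) (by norm_num) (by norm_num) (by norm_num)) hp) (by norm_num) (by norm_num) (by norm_num) (by norm_num))) (by norm_num) (by norm_num) (by norm_num) (by norm_num)) (Ap.mul (Ap.mul hf hq (by norm_num) (by norm_num) (by norm_num) (by norm_num)) (Ap.neg (Ap.mul (Ap.mul (Ap.mul (Ap.const 2) hc (by norm_num) (by norm_num) (by norm_num)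 (by norm_num)) (Ap.const 1) (by norm_num) (by norm_num) (by norm_num) (by norm_num)) (Ap.sub (Ap.mul (Ap.sub (Ap.const 2) hf) hq (by norm_num) (by norm_num) (by norm_num) (by norm_num)) hp) (by norm_num) (by norm_num) (by norm_num) (by norm_num))) (by norm_num) (by norm_num) (by norm_num) (by norm_num))) (Ap.mul hp (Ap.neg (Ap.mul (Ap.mul (Ap.mul (Ap.const 2) hc (by norm_num) (by norm_num) (by norm_num) (by norm_num)) (Ap.neg (Ap.sub hf (Ap.const 1))) (by norm_num) (by norm_num) (by norm_num) (by norm_num)) (Ap.sub (Ap.mul (Ap.sub (Ap.const 2) hf) hq (by norm_num) (by norm_num) (by norm_num) (by norm_num)) hp) (by norm_num) (by norm_num) (by norm_num) (by norm_num))) (by norm_num) (by norm_num) (by norm_num) (by norm_num))) (Ap.mul (Ap.mul hf hq (by norm_num) (by norm_num) (by norm_num) (by norm_num)) (Ap.neg (Ap.mul (Ap.mul (Ap.mul (Ap.const 2) hc (by norm_num) (by norm_num) (by norm_num) (by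 norm_num)) (Ap.neg (Ap.const 1)) (by norm_num) (by norm_num) (by norm_num) (by norm_num)) (Ap.sub (Ap.mul (Ap.sub (Ap.const 2) hf) hq (by norm_num) (by norm_num) (by norm_num) (by norm_num)) hp) (by norm_num) (by norm_num) (by norm_num) (by norm_num))) (by norm_num) (by norm_num) (by norm_num) (by norm_num))) (by norm_num) (by norm_num)

/-! ## expansion of `G3` -/

/-- the cubic part -/
def Cb (c ξ η α β γ P1 P2 P3 D1 D2 D3 Q1 Q2 Q3 : ℝ) : ℝ :=
  ξ * (((α^2+β^2+γ^2)*P2 - c*(2*α*β*Q1+(-α^2+β^2-γ^2)*Q2+2*β*γ*Q3))*D3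
      - ((α^2+β^2+γ^2)*P3 - c*(2*α*γ*Q1+2*β*γ*Q2+(-α^2-β^2+γ^2)*Q3))*D2)
  + η * (((α^2+β^2+γ^2)*P3 - c*(2*α*γ*Q1+2*β*γ*Q2+(-α^2-β^2+γ^2)*Q3))*D1
      - ((α^2+β^2+γ^2)*P1 - c*((α^2-β^2-γ^2)*Q1+2*α*β*Q2+2*α*γ*Q3))*D3)

/-- the quadratic part with given coefficients -/
def Qd (ξ η α β γ k1 k2 k3 k4 k5 k6 k7 k8 k9 k10 k11 k12 : ℝ) : ℝ :=
  k1*α^2 + k2*β^2 + k3*γ^2 + k4*(α*β) + k5*(α*γ) + k6*(β*γ) + k7*(ξ*α) + k8*(ξ*β) + k9*(ξ*γ)
    + k10*(η*α) + k11*(η*β) + k12*(η*γ)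

lemma G3_split (c ξ η α β γ P1 P2 P3 D1 D2 D3 Q1 Q2 Q3 : ℝ) :
    G3 c ξ η α β γ P1 P2 P3 D1 D2 D3 Q1 Q2 Q3 = ((P1-c*Q1)*D2-(P2-c*Q2)*D1)
      + (((P2-c*Q2)*D3-(P3-c*Q3)*D2)*ξ + ((P3-c*Q3)*D1-(P1-c*Q1)*D3)*η + (-(2*c*Q3*D1))*α + (-(2*c*Q3*D2))*β + (2*c*(Q1*D1+Q2*D2))*γ)
      + Qd ξ η α β γ ((P1-c*Q1)*D2-(P2+c*Q2)*D1) ((P1+c*Q1)*D2-(P2-c*Q2)*D1) ((P1+c*Q1)*D2-(P2+c*Q2)*D1) (2*c*(Q1*D1-Q2*D2)) (-(2*c*Q3*D2)) (2*c*Q3*D1) (2*c*(Q3*D3+Q2*D2)) (-(2*c*Q1*D2)) (-(2*c*Q1*D3)) (-(2*c*Q2*D1)) (2*c*(Q1*D1+Q3*D3)) (-(2*c*Q2*D3))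
      + Cb c ξ η α β γ P1 P2 P3 D1 D2 D3 Q1 Q2 Q3 := by
  unfold G3 Qd Cb; ring

lemma mab {x y a b : ℝ} (hx : |x| ≤ a) (hy : |y| ≤ b) : |x * y| ≤ a * b := by
  rw [abs_mul]; exact mul_le_mul hx hy (abs_nonneg _) ((abs_nonneg _).trans hx)

lemma aab {x y a b : ℝ} (hx : |x| ≤ a) (hy : |y| ≤ b) : |x + y| ≤ a + b :=
  (abs_add_le x y).trans (add_le_add hx hy)

lemma sab {x y a b : ℝ} (hx : |x| ≤ a) (hy : |y| ≤ b) : |x - y| ≤ a + b :=
  (abs_sub x y).trans (add_le_add hx hy)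

lemma m2 (x y : ℝ) : |x * y| ≤ (x^2 + y^2) / 2 := by
  rw [abs_le]; constructor <;> nlinarith [sq_nonneg (x + y), sq_nonneg (x - y)]

lemma msq (x : ℝ) : |x^2| ≤ x^2 := by rw [abs_of_nonneg (sq_nonneg x)]

/-- crude bound for the quadratic part -/
lemma Qd_le {ξ η α β γ k1 k2 k3 k4 k5 k6 k7 k8 k9 k10 k11 k12 K : ℝ}
    (h1 : |k1| ≤ K) (h2 : |k2| ≤ K) (h3 : |k3| ≤ K) (h4 : |k4| ≤ K) (h5 : |k5| ≤ K)
    (h6 : |k6| ≤ K) (h7 : |k7| ≤ K) (h8 : |k8| ≤ K) (h9 : |k9| ≤ K) (h10 : |k10| ≤ K)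
    (h11 : |k11| ≤ K) (h12 : |k12| ≤ K) :
    |Qd ξ η α β γ k1 k2 k3 k4 k5 k6 k7 k8 k9 k10 k11 k12| ≤
      3 * K * (ξ^2 + η^2 + α^2 + β^2 + γ^2) := by
  have K0 : 0 ≤ K := (abs_nonneg _).trans h1
  have a1 := mab h1 (msq α)
  have a2 := mab h2 (msq β)
  have a3 := mab h3 (msq γ)
  have a4 := mab h4 (m2 α β)
  have a5 := mab h5 (m2 α γ)
  have a6 := mab h6 (m2 β γ)
  have a7 := mab h7 (m2 ξ α)
  have a8 := mab h8 (m2 ξ β)
  have a9 := mab h9 (m2 ξ γ)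
  have a10 := mab h10 (m2 η α)
  have a11 := mab h11 (m2 η β)
  have a12 := mab h12 (m2 η γ)
  unfold Qd
  refine (aab (aab (aab (aab (aab (aab (aab (aab (aab (aab (aab a1 a2) a3) a4) a5) a6) a7) a8) a9)
    a10) a11) a12).trans ?_
  have := mul_nonneg K0 (sq_nonneg ξ)
  have := mul_nonneg K0 (sq_nonneg η)
  have := mul_nonneg K0 (sq_nonneg α)
  have := mul_nonneg K0 (sq_nonneg β)
  have := mul_nonneg K0 (sq_nonneg γ)
  nlinarith

/-- bounds of the data -/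
structure Bd (c P1 P2 P3 D1 D2 D3 Q1 Q2 Q3 : ℝ) : Prop where
  c : |c| ≤ 102/100
  P1 : |P1| ≤ 162/100
  P2 : |P2| ≤ 162/100
  P3 : |P3| ≤ 162/100
  D1 : |D1| ≤ 81/100
  D2 : |D2| ≤ 81/100
  D3 : |D3| ≤ 81/100
  Q1 : |Q1| ≤ 157/100
  Q2 : |Q2| ≤ 157/100
  Q3 : |Q3| ≤ 157/100

lemma k_a {x y z w a b c d : ℝ} (hx : |x| ≤ a) (hy : |y| ≤ b) (hz : |z| ≤ c) (hw : |w| ≤ d) :
    |(x - y) * z - w| ≤ (a + b) * c + d := sab (mab (sab hx hy) hz) hw

lemma Cb_le {c ξ η α β γ P1 P2 P3 D1 D2 D3 Q1 Q2 Q3 : ℝ}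
    (h : Bd c P1 P2 P3 D1 D2 D3 Q1 Q2 Q3) (hξ : |ξ| ≤ 2/10^5) (hη : |η| ≤ 2/10^5) :
    |Cb c ξ η α β γ P1 P2 P3 D1 D2 D3 Q1 Q2 Q3| ≤ 1/1000 * (ξ^2 + η^2 + α^2 + β^2 + γ^2) := by
  have hN : |α^2+β^2+γ^2| ≤ α^2+β^2+γ^2 := by rw [abs_of_nonneg]; positivity
  have e1 : |α^2-β^2-γ^2| ≤ α^2+β^2+γ^2 := by
    rw [abs_le]; constructor <;> nlinarith [sq_nonneg α, sq_nonneg β, sq_nonneg γ]
  have e2 : |-α^2+β^2-γ^2| ≤ α^2+β^2+γ^2 := by
    rw [abs_le]; constructor <;> nlinarith [sq_nonneg α, sq_nonneg β, sq_nonneg γ]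
  have e3 : |-α^2-β^2+γ^2| ≤ α^2+β^2+γ^2 := by
    rw [abs_le]; constructor <;> nlinarith [sq_nonneg α, sq_nonneg β, sq_nonneg γ]
  have f1 : |2*α*β| ≤ α^2+β^2+γ^2 := by
    rw [abs_le]; constructor <;> nlinarith [sq_nonneg (α+β), sq_nonneg (α-β), sq_nonneg γ]
  have f2 : |2*α*γ| ≤ α^2+β^2+γ^2 := by
    rw [abs_le]; constructor <;> nlinarith [sq_nonneg (α+γ), sq_nonneg (α-γ), sq_nonneg β]
  have f3 : |2*β*γ| ≤ α^2+β^2+γ^2 := by
    rw [abs_le]; constructor <;> nlinarith [sq_nonneg (γ+β), sq_nonneg (γ-β), sq_nonneg α]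
  have y1 := sab (mab hN h.P1) (mab h.c (aab (aab (mab e1 h.Q1) (mab f1 h.Q2)) (mab f2 h.Q3)))
  have y2 := sab (mab hN h.P2) (mab h.c (aab (aab (mab f1 h.Q1) (mab e2 h.Q2)) (mab f3 h.Q3)))
  have y3 := sab (mab hN h.P3) (mab h.c (aab (aab (mab f2 h.Q1) (mab f3 h.Q2)) (mab e3 h.Q3)))
  have z := aab (mab hξ (sab (mab y2 h.D3) (mab y3 h.D2))) (mab hη (sab (mab y3 h.D1) (mab y1 h.D3)))
  unfold Cb
  refine z.trans ?_
  nlinarith [sq_nonneg α, sq_nonneg β, sq_nonneg γ, sq_nonneg ξ, sq_nonneg η]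
lemma sos (ξ η α β γ : ℝ) :
    Qd ξ η α β γ ((286667)/10^5) ((619085)/10^5) ((905752)/10^5) ((0)/10^5) ((0)/10^5) ((0)/10^5) ((0)/10^5) ((-619085)/10^5) ((700307)/10^5) ((286667)/10^5) ((0)/10^5) ((0)/10^5)
      - 24*(((18829)/10^5*ξ + (16413)/10^5*η + (53224)/10^5*α + (-61057)/10^5*β + (-106448)/10^5*γ)^2 + ((-31005)/10^5*ξ + (-27027)/10^5*η + (-87643)/10^5*α + (100542)/10^5*β + (-10097)/10^5*γ)^2 + ((42228)/10^5*ξ + (-36811)/10^5*η + (-53224)/10^5*α + (-61057)/10^5*β + (106448)/10^5*γ)^2 + ((-69537)/10^5*ξ + (60616)/10^5*η + (87643)/10^5*α + (100542)/10^5*β + (10097)/10^5*γ)^2)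
      ≤ -(35/100)*(ξ^2+η^2+α^2+β^2+γ^2) := by
  have h : 0 ≤ (23365818857/1250000000)*(ξ + (-13867491564/23365818857)*η + (-13867345356/23365818857)*α + (-37640671789/23365818857)*β + (1928238694/23365818857)*γ)^2 + (220101329841876979129/29207273571250000000)*(η + (502841838668386980341/220101329841876979129)*α + (-197952986342207221392/220101329841876979129)*β + (-308372061284072094735/220101329841876979129)*γ)^2 + (14687268735913489202990499473/11005066492093848956450000000)*(α + (-656883080606625690620904613452/367181718397837230074762486825)*β + (574798503186764168053184021469/367181718397837230074762486825)*γ)^2 + (458555349932043400398979925216618762449/458977147997296537593453108531250000000)*(β + (-1502251367801124883122827331966346038278/458555349932043400398979925216618762449)*γ)^2 + (759307156141343339772623809090936665174915937/45855534993204340039897992521661876244900000)*(γ)^2 :=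 by positivity
  have h2 : (23365818857/1250000000)*(ξ + (-13867491564/23365818857)*η + (-13867345356/23365818857)*α + (-37640671789/23365818857)*β + (1928238694/23365818857)*γ)^2 + (220101329841876979129/29207273571250000000)*(η + (502841838668386980341/220101329841876979129)*α + (-197952986342207221392/220101329841876979129)*β + (-308372061284072094735/220101329841876979129)*γ)^2 + (14687268735913489202990499473/11005066492093848956450000000)*(α + (-656883080606625690620904613452/367181718397837230074762486825)*β + (574798503186764168053184021469/367181718397837230074762486825)*γ)^2 + (458555349932043400398979925216618762449/458977147997296537593453108531250000000)*(β + (-1502251367801124883122827331966346038278/458555349932043400398979925216618762449)*γ)^2 + (759307156141343339772623809090936665174915937/45855534993204340039897992521661876244900000)*(γ)^2 = -(35/100)*(ξ^2+η^2+α^2+β^2+γ^2) - (Qd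 ξ η α β γ ((286667)/10^5) ((619085)/10^5) ((905752)/10^5) ((0)/10^5) ((0)/10^5) ((0)/10^5) ((0)/10^5) ((-619085)/10^5) ((700307)/10^5) ((286667)/10^5) ((0)/10^5) ((0)/10^5)
      - 24*(((18829)/10^5*ξ + (16413)/10^5*η + (53224)/10^5*α + (-61057)/10^5*β + (-106448)/10^5*γ)^2 + ((-31005)/10^5*ξ + (-27027)/10^5*η + (-87643)/10^5*α + (100542)/10^5*β + (-10097)/10^5*γ)^2 + ((42228)/10^5*ξ + (-36811)/10^5*η + (-53224)/10^5*α + (-61057)/10^5*β + (106448)/10^5*γ)^2 + ((-69537)/10^5*ξ + (60616)/10^5*η + (87643)/10^5*α + (100542)/10^5*β + (10097)/10^5*γ)^2)) := by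
    unfold Qd; ring
  linarith

lemma lin_apx {a b c d e a0 b0 c0 d0 e0 δ ξ η α β γ : ℝ} (ha : |a - a0| ≤ δ) (hb : |b - b0| ≤ δ)
    (hc : |c - c0| ≤ δ) (hd : |d - d0| ≤ δ) (he : |e - e0| ≤ δ) :
    |(a*ξ + b*η + c*α + d*β + e*γ) - (a0*ξ + b0*η + c0*α + d0*β + e0*γ)| ≤
      δ * (|ξ| + |η| + |α| + |β| + |γ|) := by
  rw [show (a*ξ + b*η + c*α + d*β + e*γ) - (a0*ξ + b0*η + c0*α + d0*β + e0*γ) =
    (a - a0)*ξ + (b - b0)*η + (c - c0)*α + (d - d0)*β + (e - e0)*γ by ring]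
  refine (aab (aab (aab (aab (mab ha le_rfl) (mab hb le_rfl)) (mab hc le_rfl)) (mab hd le_rfl))
    (mab he le_rfl)).trans (le_of_eq ?_)
  ring

lemma lin_bd {a b c d e δ ξ η α β γ : ℝ} (ha : |a| ≤ δ) (hb : |b| ≤ δ)
    (hc : |c| ≤ δ) (hd : |d| ≤ δ) (he : |e| ≤ δ) :
    |a*ξ + b*η + c*α + d*β + e*γ| ≤ δ * (|ξ| + |η| + |α| + |β| + |γ|) := by
  refine (aab (aab (aab (aab (mab ha le_rfl) (mab hb le_rfl)) (mab hc le_rfl)) (mab hd le_rfl))
    (mab he le_rfl)).trans (le_of_eq ?_)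
  ring

lemma T_sq (ξ η α β γ : ℝ) :
    (|ξ| + |η| + |α| + |β| + |γ|)^2 ≤ 5 * (ξ^2+η^2+α^2+β^2+γ^2) := by
  rw [← sq_abs ξ, ← sq_abs η, ← sq_abs α, ← sq_abs β, ← sq_abs γ]
  nlinarith [sq_nonneg (|ξ| - |η|), sq_nonneg (|ξ| - |α|), sq_nonneg (|ξ| - |β|),
    sq_nonneg (|ξ| - |γ|), sq_nonneg (|η| - |α|), sq_nonneg (|η| - |β|), sq_nonneg (|η| - |γ|),
    sq_nonneg (|α| - |β|), sq_nonneg (|α| - |γ|), sq_nonneg (|β| - |γ|)]

/-- one constraint: `L` the linear part, `L0` its approximation -/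
lemma one {L L0 R T S : ℝ} (hT : 0 ≤ T) (hTS : T^2 ≤ 5 * S) (hT2 : T ≤ 10/10^5)
    (h1 : |L - L0| ≤ 1/10^5 * T) (h2 : |L0| ≤ 11/10 * T) (hR : |R| ≤ 16 * S) :
    |L| ≤ 12/10^5 ∧ L0^2 - 12/10^5 * S ≤ L^2 ∧ -(2/1000 * S) ≤ L * R := by
  have hS : 0 ≤ S := by nlinarith [sq_nonneg T]
  have hL : |L| ≤ 12/10 * T := by
    have := aab h1 h2
    rw [sub_add_cancel] at this
    linarith
  have hL2 : |L| ≤ 12/10^5 := by linarith
  refine ⟨hL2, ?_, ?_⟩
  · have h3 := mab h2 h1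
    have h4 := (abs_le.1 h3).1
    nlinarith [sq_nonneg (L - L0)]
  · have h3 := mab hL2 hR
    have h4 := (abs_le.1 h3).1
    linarith

lemma core {ξ η α β γ : ℝ} (hξ : |ξ| ≤ 2/10^5) (hη : |η| ≤ 2/10^5) (hα : |α| ≤ 2/10^5)
    (hβ : |β| ≤ 2/10^5) (hγ : |γ| ≤ 2/10^5)
    {a1 b1 c1 d1 e1 a2 b2 c2 d2 e2 a3 b3 c3 d3 e3 a4 b4 c4 d4 e4 R1 R2 R3 R4 k1 k2 k3 k4 k5 k6 k7 k8 k9 k10 k11 k12 C p w : ℝ}
    (ha1 : |a1 - ((18829)/10^5)| ≤ 1/10^5)
    (hb1 : |b1 - ((16413)/10^5)| ≤ 1/10^5)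
    (hc1 : |c1 - ((53224)/10^5)| ≤ 1/10^5)
    (hd1 : |d1 - ((-61057)/10^5)| ≤ 1/10^5)
    (he1 : |e1 - ((-106448)/10^5)| ≤ 1/10^5)
    (ha2 : |a2 - ((-31005)/10^5)| ≤ 1/10^5)
    (hb2 : |b2 - ((-27027)/10^5)| ≤ 1/10^5)
    (hc2 : |c2 - ((-87643)/10^5)| ≤ 1/10^5)
    (hd2 : |d2 - ((100542)/10^5)| ≤ 1/10^5)
    (he2 : |e2 - ((-10097)/10^5)| ≤ 1/10^5)
    (ha3 : |a3 - ((42228)/10^5)| ≤ 1/10^5)
    (hb3 : |b3 - ((-36811)/10^5)| ≤ 1/10^5)
    (hc3 : |c3 - ((-53224)/10^5)| ≤ 1/10^5)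
    (hd3 : |d3 - ((-61057)/10^5)| ≤ 1/10^5)
    (he3 : |e3 - ((106448)/10^5)| ≤ 1/10^5)
    (ha4 : |a4 - ((-69537)/10^5)| ≤ 1/10^5)
    (hb4 : |b4 - ((60616)/10^5)| ≤ 1/10^5)
    (hc4 : |c4 - ((87643)/10^5)| ≤ 1/10^5)
    (hd4 : |d4 - ((100542)/10^5)| ≤ 1/10^5)
    (he4 : |e4 - ((10097)/10^5)| ≤ 1/10^5)
    (hR1 : |R1| ≤ 16*(ξ^2+η^2+α^2+β^2+γ^2))
    (hR2 : |R2| ≤ 16*(ξ^2+η^2+α^2+β^2+γ^2))
    (hR3 : |R3| ≤ 16*(ξ^2+η^2+α^2+β^2+γ^2))
    (hR4 : |R4| ≤ 16*(ξ^2+η^2+α^2+β^2+γ^2))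
    (hk1 : |k1 - ((286667)/10^5)| ≤ 1/10^5)
    (hk2 : |k2 - ((619085)/10^5)| ≤ 1/10^5)
    (hk3 : |k3 - ((905752)/10^5)| ≤ 1/10^5)
    (hk4 : |k4 - ((0)/10^5)| ≤ 1/10^5)
    (hk5 : |k5 - ((0)/10^5)| ≤ 1/10^5)
    (hk6 : |k6 - ((0)/10^5)| ≤ 1/10^5)
    (hk7 : |k7 - ((0)/10^5)| ≤ 1/10^5)
    (hk8 : |k8 - ((-619085)/10^5)| ≤ 1/10^5)
    (hk9 : |k9 - ((700307)/10^5)| ≤ 1/10^5)
    (hk10 : |k10 - ((286667)/10^5)| ≤ 1/10^5)
    (hk11 : |k11 - ((0)/10^5)| ≤ 1/10^5)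
    (hk12 : |k12 - ((0)/10^5)| ≤ 1/10^5)
    (hC : |C| ≤ 1/100*(ξ^2+η^2+α^2+β^2+γ^2)) (hp : 9/10 ≤ p) (hw : 1/2 ≤ w)
    (g1 : 0 < (a1*ξ + b1*η + c1*α + d1*β + e1*γ) + R1)
    (g2 : 0 < (a2*ξ + b2*η + c2*α + d2*β + e2*γ) + R2)
    (g3 : 0 < (a3*ξ + b3*η + c3*α + d3*β + e3*γ) + R3)
    (g4 : 0 < (a4*ξ + b4*η + c4*α + d4*β + e4*γ) + R4)
    (hs : p*((a1*ξ + b1*η + c1*α + d1*β + e1*γ) + R1) + w*((a2*ξ + b2*η + c2*α + d2*β + e2*γ) + R2) + p*((a3*ξ + b3*η + c3*α + d3*β + e3*γ) + R3) + w*((a4*ξ + b4*η + c4*α + d4*β + e4*γ) + R4)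
      = Qd ξ η α β γ k1 k2 k3 k4 k5 k6 k7 k8 k9 k10 k11 k12 + C) : False := by
  have hT0 : 0 ≤ |ξ| + |η| + |α| + |β| + |γ| := by positivity
  have hT2 : |ξ| + |η| + |α| + |β| + |γ| ≤ 10/10^5 := by linarith
  have hTS := T_sq ξ η α β γ
  have o1 := one hT0 hTS hT2 (lin_apx (ξ := ξ) (η := η) (α := α) (β := β) (γ := γ) ha1 hb1 hc1 hd1 he1)
    (lin_bd (δ := 11/10) (by norm_num [abs_of_nonneg, abs_of_neg, abs_le]) (by norm_num [abs_of_nonneg, abs_of_neg, abs_le]) (by norm_num [abs_of_nonneg, abs_of_neg, abs_le]) (by norm_num [abs_of_nonneg, abs_of_neg, abs_le]) (by norm_num [abs_of_nonneg, abs_of_neg, abs_le])) hR1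
  have o2 := one hT0 hTS hT2 (lin_apx (ξ := ξ) (η := η) (α := α) (β := β) (γ := γ) ha2 hb2 hc2 hd2 he2)
    (lin_bd (δ := 11/10) (by norm_num [abs_of_nonneg, abs_of_neg, abs_le]) (by norm_num [abs_of_nonneg, abs_of_neg, abs_le]) (by norm_num [abs_of_nonneg, abs_of_neg, abs_le]) (by norm_num [abs_of_nonneg, abs_of_neg, abs_le]) (by norm_num [abs_of_nonneg, abs_of_neg, abs_le])) hR2
  have o3 := one hT0 hTS hT2 (lin_apx (ξ := ξ) (η := η) (α := α) (β := β) (γ := γ) ha3 hb3 hc3 hd3 he3)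
    (lin_bd (δ := 11/10) (by norm_num [abs_of_nonneg, abs_of_neg, abs_le]) (by norm_num [abs_of_nonneg, abs_of_neg, abs_le]) (by norm_num [abs_of_nonneg, abs_of_neg, abs_le]) (by norm_num [abs_of_nonneg, abs_of_neg, abs_le]) (by norm_num [abs_of_nonneg, abs_of_neg, abs_le])) hR3
  have o4 := one hT0 hTS hT2 (lin_apx (ξ := ξ) (η := η) (α := α) (β := β) (γ := γ) ha4 hb4 hc4 hd4 he4)
    (lin_bd (δ := 11/10) (by norm_num [abs_of_nonneg, abs_of_neg, abs_le]) (by norm_num [abs_of_nonneg, abs_of_neg, abs_le]) (by norm_num [abs_of_nonneg, abs_of_neg, abs_le]) (by norm_num [abs_of_nonneg, abs_of_neg, abs_le]) (by norm_num [abs_of_nonneg, abs_of_neg, abs_le])) hR4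
  have hq : |Qd ξ η α β γ (k1 - ((286667)/10^5)) (k2 - ((619085)/10^5)) (k3 - ((905752)/10^5)) (k4 - ((0)/10^5))
      (k5 - ((0)/10^5)) (k6 - ((0)/10^5)) (k7 - ((0)/10^5)) (k8 - ((-619085)/10^5)) (k9 - ((700307)/10^5))
      (k10 - ((286667)/10^5)) (k11 - ((0)/10^5)) (k12 - ((0)/10^5))| ≤ 3 * (1/10^5) * (ξ^2+η^2+α^2+β^2+γ^2) :=
    Qd_le hk1 hk2 hk3 hk4 hk5 hk6 hk7 hk8 hk9 hk10 hk11 hk12
  have hq2 : Qd ξ η α β γ k1 k2 k3 k4 k5 k6 k7 k8 k9 k10 k11 k12 =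
      Qd ξ η α β γ (k1 - ((286667)/10^5)) (k2 - ((619085)/10^5)) (k3 - ((905752)/10^5)) (k4 - ((0)/10^5))
      (k5 - ((0)/10^5)) (k6 - ((0)/10^5)) (k7 - ((0)/10^5)) (k8 - ((-619085)/10^5)) (k9 - ((700307)/10^5))
      (k10 - ((286667)/10^5)) (k11 - ((0)/10^5)) (k12 - ((0)/10^5))
      + Qd ξ η α β γ ((286667)/10^5) ((619085)/10^5) ((905752)/10^5) ((0)/10^5) ((0)/10^5) ((0)/10^5) ((0)/10^5) ((-619085)/10^5) ((700307)/10^5) ((286667)/10^5) ((0)/10^5) ((0)/10^5) := by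
    unfold Qd; ring
  have hsos := sos ξ η α β γ
  have hS : 0 ≤ (ξ^2+η^2+α^2+β^2+γ^2) := by positivity
  have mu1 : 0 < (p - 24*(a1*ξ + b1*η + c1*α + d1*β + e1*γ)) * ((a1*ξ + b1*η + c1*α + d1*β + e1*γ) + R1) :=
    mul_pos (by linarith [(abs_le.1 o1.1).2]) g1
  have mu2 : 0 < (w - 24*(a2*ξ + b2*η + c2*α + d2*β + e2*γ)) * ((a2*ξ + b2*η + c2*α + d2*β + e2*γ) + R2) :=
    mul_pos (by linarith [(abs_le.1 o2.1).2]) g2
  have mu3 : 0 < (p - 24*(a3*ξ + b3*η + c3*α + d3*β + e3*γ)) * ((a3*ξ + b3*η + c3*α + d3*β + e3*γ) + R3) :=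
    mul_pos (by linarith [(abs_le.1 o3.1).2]) g3
  have mu4 : 0 < (w - 24*(a4*ξ + b4*η + c4*α + d4*β + e4*γ)) * ((a4*ξ + b4*η + c4*α + d4*β + e4*γ) + R4) :=
    mul_pos (by linarith [(abs_le.1 o4.1).2]) g4
  generalize hX1 : a1*ξ + b1*η + c1*α + d1*β + e1*γ = X1 at *
  generalize hX2 : a2*ξ + b2*η + c2*α + d2*β + e2*γ = X2 at *
  generalize hX3 : a3*ξ + b3*η + c3*α + d3*β + e3*γ = X3 at *
  generalize hX4 : a4*ξ + b4*η + c4*α + d4*β + e4*γ = X4 at *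
  generalize hY1 : (18829)/10^5*ξ + (16413)/10^5*η + (53224)/10^5*α + (-61057)/10^5*β + (-106448)/10^5*γ = Y1 at *
  generalize hY2 : (-31005)/10^5*ξ + (-27027)/10^5*η + (-87643)/10^5*α + (100542)/10^5*β + (-10097)/10^5*γ = Y2 at *
  generalize hY3 : (42228)/10^5*ξ + (-36811)/10^5*η + (-53224)/10^5*α + (-61057)/10^5*β + (106448)/10^5*γ = Y3 at *
  generalize hY4 : (-69537)/10^5*ξ + (60616)/10^5*η + (87643)/10^5*α + (100542)/10^5*β + (10097)/10^5*γ = Y4 at *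
  generalize hSS : ξ^2+η^2+α^2+β^2+γ^2 = S at *
  have q1 := (abs_le.1 hq).2
  have q2 := (abs_le.1 hC).2
  have z1 := o1.2.1
  have z2 := o2.2.1
  have z3 := o3.2.1
  have z4 := o4.2.1
  have y1 := o1.2.2
  have y2 := o2.2.2
  have y3 := o3.2.2
  have y4 := o4.2.2
  linarith
lemma R_le {c ξ η α β γ P1 P2 P3 D1 D2 D3 Q1 Q2 Q3 : ℝ}
    (h : Bd c P1 P2 P3 D1 D2 D3 Q1 Q2 Q3) (hξ : |ξ| ≤ 2/10^5) (hη : |η| ≤ 2/10^5) :
    |Qd ξ η α β γ ((P1-c*Q1)*D2-(P2+c*Q2)*D1) ((P1+c*Q1)*D2-(P2-c*Q2)*D1) ((P1+c*Q1)*D2-(P2+c*Q2)*D1) (2*c*(Q1*D1-Q2*D2)) (-(2*c*Q3*D2)) (2*c*Q3*D1) (2*c*(Q3*D3+Q2*D2)) (-(2*c*Q1*D2)) (-(2*c*Q1*D3)) (-(2*c*Q2*D1)) (2*c*(Q1*D1+Q3*D3)) (-(2*c*Q2*D3))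
      + Cb c ξ η α β γ P1 P2 P3 D1 D2 D3 Q1 Q2 Q3| ≤ 16 * (ξ^2+η^2+α^2+β^2+γ^2) := by
  have hS : 0 ≤ (ξ^2+η^2+α^2+β^2+γ^2) := by positivity
  have two : |(2:ℝ)| ≤ 2 := by norm_num
  have h2c := mab two h.c
  have a1 := sab (mab (sab h.P1 (mab h.c h.Q1)) h.D2) (mab (aab h.P2 (mab h.c h.Q2)) h.D1)
  have a2 := sab (mab (aab h.P1 (mab h.c h.Q1)) h.D2) (mab (sab h.P2 (mab h.c h.Q2)) h.D1)
  have a3 := sab (mab (aab h.P1 (mab h.c h.Q1)) h.D2) (mab (aab h.P2 (mab h.c h.Q2)) h.D1)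
  have a4 := mab h2c (sab (mab h.Q1 h.D1) (mab h.Q2 h.D2))
  have a5 := mab (mab h2c h.Q3) h.D2
  have a6 := mab (mab h2c h.Q3) h.D1
  have a7 := mab h2c (aab (mab h.Q3 h.D3) (mab h.Q2 h.D2))
  have a8 := mab (mab h2c h.Q1) h.D2
  have a9 := mab (mab h2c h.Q1) h.D3
  have a10 := mab (mab h2c h.Q2) h.D1
  have a11 := mab h2c (aab (mab h.Q1 h.D1) (mab h.Q3 h.D3))
  have a12 := mab (mab h2c h.Q2) h.D3
  rw [← abs_neg] at a5 a8 a9 a10 a12
  have hq := Qd_le (ξ := ξ) (η := η) (α := α) (β := β) (γ := γ) (K := 53/10) (a1.trans (by norm_num)) (a2.trans (by norm_num))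
    (a3.trans (by norm_num)) (a4.trans (by norm_num)) (a5.trans (by norm_num))
    (a6.trans (by norm_num)) (a7.trans (by norm_num)) (a8.trans (by norm_num))
    (a9.trans (by norm_num)) (a10.trans (by norm_num)) (a11.trans (by norm_num))
    (a12.trans (by norm_num))
  exact (aab hq (Cb_le h hξ hη)).trans (by linarith)

lemma fin_abs {x x0 d : ℝ} {e : ℝ} (h : |x - x0| ≤ e) (h1 : x0 + e ≤ d) (h2 : -x0 + e ≤ d) : |x| ≤ d := by
  rw [abs_le] at *
  constructor <;> linarith [h.1, h.2]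

lemma bd1 {A B p q c : ℝ} (h : Opt A B p q c) :
    Bd c (φ) ((φ-1)*p) ((φ-1)*q) (1-φ) ((2-φ)*p+q) ((2-φ)*q-p) (φ*A) (φ-1) (φ*B) := by
  obtain ⟨hA, hB, hp, hq, hc, hf⟩ := apx h
  exact ⟨fin_abs hc (by norm_num) (by norm_num),
    fin_abs hf (by norm_num) (by norm_num),
    fin_abs (Ap.mul (Ap.sub hf (Ap.const 1)) hp (by norm_num) (by norm_num) (by norm_num) (by norm_num)) (by norm_num) (by norm_num),
    fin_abs (Ap.mul (Ap.sub hf (Ap.const 1)) hq (by norm_num) (by norm_num) (by norm_num) (by norm_num)) (by norm_num) (by norm_num),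
    fin_abs (Ap.sub (Ap.const 1) hf) (by norm_num) (by norm_num),
    fin_abs (Ap.add (Ap.mul (Ap.sub (Ap.const 2) hf) hp (by norm_num) (by norm_num) (by norm_num) (by norm_num)) hq) (by norm_num) (by norm_num),
    fin_abs (Ap.sub (Ap.mul (Ap.sub (Ap.const 2) hf) hq (by norm_num) (by norm_num) (by norm_num) (by norm_num)) hp) (by norm_num) (by norm_num),
    fin_abs (Ap.mul hf hA (by norm_num) (by norm_num) (by norm_num) (by norm_num)) (by norm_num) (by norm_num),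
    fin_abs (Ap.sub hf (Ap.const 1)) (by norm_num) (by norm_num),
    fin_abs (Ap.mul hf hB (by norm_num) (by norm_num) (by norm_num) (by norm_num)) (by norm_num) (by norm_num)⟩

lemma bd2 {A B p q c : ℝ} (h : Opt A B p q c) :
    Bd c (φ) ((φ-1)*p) ((φ-1)*q) (1-φ) ((2-φ)*p+q) ((2-φ)*q-p) (A+B) (1) (B-A) := by
  obtain ⟨hA, hB, hp, hq, hc, hf⟩ := apx h
  exact ⟨fin_abs hc (by norm_num) (by norm_num),
    fin_abs hf (by norm_num) (by norm_num),
    fin_abs (Ap.mul (Ap.sub hf (Ap.const 1)) hp (by norm_num) (by norm_num) (by norm_num) (by norm_num)) (by norm_num) (by norm_num),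
    fin_abs (Ap.mul (Ap.sub hf (Ap.const 1)) hq (by norm_num) (by norm_num) (by norm_num) (by norm_num)) (by norm_num) (by norm_num),
    fin_abs (Ap.sub (Ap.const 1) hf) (by norm_num) (by norm_num),
    fin_abs (Ap.add (Ap.mul (Ap.sub (Ap.const 2) hf) hp (by norm_num) (by norm_num) (by norm_num) (by norm_num)) hq) (by norm_num) (by norm_num),
    fin_abs (Ap.sub (Ap.mul (Ap.sub (Ap.const 2) hf) hq (by norm_num) (by norm_num) (by norm_num) (by norm_num)) hp) (by norm_num) (by norm_num),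
    fin_abs (Ap.add hA hB) (by norm_num) (by norm_num),
    fin_abs (Ap.const 1) (by norm_num) (by norm_num),
    fin_abs (Ap.sub hB hA) (by norm_num) (by norm_num)⟩

lemma bd3 {A B p q c : ℝ} (h : Opt A B p q c) :
    Bd c (φ) (-((φ-1)*p)) (-((φ-1)*q)) (φ-1) ((2-φ)*p+q) ((2-φ)*q-p) (φ*A) (-(φ-1)) (φ*B) := by
  obtain ⟨hA, hB, hp, hq, hc, hf⟩ := apx h
  exact ⟨fin_abs hc (by norm_num) (by norm_num),
    fin_abs hf (by norm_num) (by norm_num),
    fin_abs (Ap.neg (Ap.mul (Ap.sub hf (Ap.const 1)) hp (by norm_num) (by norm_num) (by norm_num) (by norm_num))) (by norm_num) (by norm_num),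
    fin_abs (Ap.neg (Ap.mul (Ap.sub hf (Ap.const 1)) hq (by norm_num) (by norm_num) (by norm_num) (by norm_num))) (by norm_num) (by norm_num),
    fin_abs (Ap.sub hf (Ap.const 1)) (by norm_num) (by norm_num),
    fin_abs (Ap.add (Ap.mul (Ap.sub (Ap.const 2) hf) hp (by norm_num) (by norm_num) (by norm_num) (by norm_num)) hq) (by norm_num) (by norm_num),
    fin_abs (Ap.sub (Ap.mul (Ap.sub (Ap.const 2) hf) hq (by norm_num) (by norm_num) (by norm_num) (by norm_num)) hp) (by norm_num) (by norm_num),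
    fin_abs (Ap.mul hf hA (by norm_num) (by norm_num) (by norm_num) (by norm_num)) (by norm_num) (by norm_num),
    fin_abs (Ap.neg (Ap.sub hf (Ap.const 1))) (by norm_num) (by norm_num),
    fin_abs (Ap.mul hf hB (by norm_num) (by norm_num) (by norm_num) (by norm_num)) (by norm_num) (by norm_num)⟩

lemma bd4 {A B p q c : ℝ} (h : Opt A B p q c) :
    Bd c (φ) (-((φ-1)*p)) (-((φ-1)*q)) (φ-1) ((2-φ)*p+q) ((2-φ)*q-p) (A+B) (-1) (B-A) := by
  obtain ⟨hA, hB, hp, hq, hc, hf⟩ := apx h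
  exact ⟨fin_abs hc (by norm_num) (by norm_num),
    fin_abs hf (by norm_num) (by norm_num),
    fin_abs (Ap.neg (Ap.mul (Ap.sub hf (Ap.const 1)) hp (by norm_num) (by norm_num) (by norm_num) (by norm_num))) (by norm_num) (by norm_num),
    fin_abs (Ap.neg (Ap.mul (Ap.sub hf (Ap.const 1)) hq (by norm_num) (by norm_num) (by norm_num) (by norm_num))) (by norm_num) (by norm_num),
    fin_abs (Ap.sub hf (Ap.const 1)) (by norm_num) (by norm_num),
    fin_abs (Ap.add (Ap.mul (Ap.sub (Ap.const 2) hf) hp (by norm_num) (by norm_num) (by norm_num) (by norm_num)) hq) (by norm_num) (by norm_num),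
    fin_abs (Ap.sub (Ap.mul (Ap.sub (Ap.const 2) hf) hq (by norm_num) (by norm_num) (by norm_num) (by norm_num)) hp) (by norm_num) (by norm_num),
    fin_abs (Ap.add hA hB) (by norm_num) (by norm_num),
    fin_abs (Ap.neg (Ap.const 1)) (by norm_num) (by norm_num),
    fin_abs (Ap.sub hB hA) (by norm_num) (by norm_num)⟩

/-- **LE** -/
theorem le : LE := by
  intro A B p q c h ξ η α β γ hξ hη hα hβ hγ hact
  obtain ⟨g1, g2, g3, g4⟩ := hact
  rw [G3_split] at g1 g2 g3 g4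
  have hf2 := Real.goldenRatio_sq
  have i1 := h.d1
  have i2 := h.d2
  have i3 := h.d3
  have i4 := h.d4
  have z1 : ((φ)-c*(φ*A))*((2-φ)*p+q)-(((φ-1)*p)-c*(φ-1))*(1-φ) = 0 := by
    clear g1 g2 g3 g4 i3 i4
    grind
  have z2 : ((φ)-c*(A+B))*((2-φ)*p+q)-(((φ-1)*p)-c*(1))*(1-φ) = 0 := by
    clear g1 g2 g3 g4 i3 i4
    grind
  have z3 : ((φ)-c*(φ*A))*((2-φ)*p+q)-((-((φ-1)*p))-c*(-(φ-1)))*(φ-1) = 0 := by
    clear g1 g2 g3 g4 i3 i4
    grind
  have z4 : ((φ)-c*(A+B))*((2-φ)*p+q)-((-((φ-1)*p))-c*(-1))*(φ-1) = 0 := by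
    clear g1 g2 g3 g4 i3 i4
    grind
  have s1 : p*((((φ-1)*p)-c*(φ-1))*((2-φ)*q-p)-(((φ-1)*q)-c*(φ*B))*((2-φ)*p+q)) + (φ*q)*((((φ-1)*p)-c*(1))*((2-φ)*q-p)-(((φ-1)*q)-c*(B-A))*((2-φ)*p+q)) + p*(((-((φ-1)*p))-c*(-(φ-1)))*((2-φ)*q-p)-((-((φ-1)*q))-c*(φ*B))*((2-φ)*p+q)) + (φ*q)*(((-((φ-1)*p))-c*(-1))*((2-φ)*q-p)-((-((φ-1)*q))-c*(B-A))*((2-φ)*p+q)) = 0 := by
    clear g1 g2 g3 g4 i1 i2 z1 z2 z3 z4
    grind
  have s2 : p*((((φ-1)*q)-c*(φ*B))*(1-φ)-((φ)-c*(φ*A))*((2-φ)*q-p)) + (φ*q)*((((φ-1)*q)-c*(B-A))*(1-φ)-((φ)-c*(A+B))*((2-φ)*q-p)) + p*(((-((φ-1)*q))-c*(φ*B))*(φ-1)-((φ)-c*(φ*A))*((2-φ)*q-p)) + (φ*q)*(((-((φ-1)*q))-c*(B-A))*(φ-1)-((φ)-c*(A+B))*((2-φ)*q-p)) = 0 := by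
    clear g1 g2 g3 g4 i1 i2 z1 z2 z3 z4
    grind
  have s3 : p*(-(2*c*(φ*B)*(1-φ))) + (φ*q)*(-(2*c*(B-A)*(1-φ))) + p*(-(2*c*(φ*B)*(φ-1))) + (φ*q)*(-(2*c*(B-A)*(φ-1))) = 0 := by
    clear g1 g2 g3 g4 i1 i2 z1 z2 z3 z4
    grind
  have s4 : p*(-(2*c*(φ*B)*((2-φ)*p+q))) + (φ*q)*(-(2*c*(B-A)*((2-φ)*p+q))) + p*(-(2*c*(φ*B)*((2-φ)*p+q))) + (φ*q)*(-(2*c*(B-A)*((2-φ)*p+q))) = 0 := by
    clear g1 g2 g3 g4 i1 i2 z1 z2 z3 z4
    grind
  have s5 : p*(2*c*((φ*A)*(1-φ)+(φ-1)*((2-φ)*p+q))) + (φ*q)*(2*c*((A+B)*(1-φ)+(1)*((2-φ)*p+q))) + p*(2*c*((φ*A)*(φ-1)+(-(φ-1))*((2-φ)*p+q))) + (φ*q)*(2*c*((A+B)*(φ-1)+(-1)*((2-φ)*p+q))) = 0 := by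
    clear g1 g2 g3 g4 i1 i2 z1 z2 z3 z4
    grind
  have hlam : |φ * q - (5685)/10^4| ≤ 1/10^3 := by
    obtain ⟨hA, hB, hp, hq, hc, hf⟩ := apx h
    exact Ap.fin (Ap.mul hf hq (by norm_num) (by norm_num) (by norm_num) (by norm_num)) (by norm_num) (by norm_num)
  have hC : |p * Cb c ξ η α β γ (φ) ((φ-1)*p) ((φ-1)*q) (1-φ) ((2-φ)*p+q) ((2-φ)*q-p) (φ*A) (φ-1) (φ*B) + (φ*q) * Cb c ξ η α β γ (φ) ((φ-1)*p) ((φ-1)*q) (1-φ) ((2-φ)*p+q) ((2-φ)*q-p) (A+B) (1) (B-A) + p * Cb c ξ η α β γ (φ) (-((φ-1)*p)) (-((φ-1)*q)) (φ-1) ((2-φ)*p+q) ((2-φ)*q-p) (φ*A) (-(φ-1)) (φ*B) + (φ*q) * Cb c ξ η α β γ (φ) (-((φ-1)*p)) (-((φ-1)*q)) (φ-1) ((2-φ)*p+q) ((2-φ)*q-p) (A+B) (-1) (B-A)| ≤ 1/100*(ξ^2+η^2+α^2+β^2+γ^2) := by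
    have u := Cb_le (α := α) (β := β) (γ := γ) (bd1 h) hξ hη
    have v := Cb_le (α := α) (β := β) (γ := γ) (bd2 h) hξ hη
    have x := Cb_le (α := α) (β := β) (γ := γ) (bd3 h) hξ hη
    have y := Cb_le (α := α) (β := β) (γ := γ) (bd4 h) hξ hη
    have hp1 : |p| ≤ 1 := fin_abs h.np (by norm_num) (by norm_num)
    have hw1 : |φ * q| ≤ 1 := fin_abs hlam (by norm_num) (by norm_num)
    have hS : 0 ≤ (ξ^2+η^2+α^2+β^2+γ^2) := by positivity
    exact (aab (aab (aab (mab hp1 u) (mab hw1 v)) (mab hp1 x)) (mab hw1 y)).trans (by linarith)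
  have hp9 : 9/10 ≤ p := by linarith [(abs_le.1 h.np).1]
  have hw5 : 1/2 ≤ φ * q := by linarith [(abs_le.1 hlam).1]
  rw [z1, zero_add, add_assoc] at g1
  rw [z2, zero_add, add_assoc] at g2
  rw [z3, zero_add, add_assoc] at g3
  rw [z4, zero_add, add_assoc] at g4
  refine core hξ hη hα hβ hγ (x11 h) (x12 h) (x13 h) (x14 h) (x15 h) (x21 h) (x22 h) (x23 h) (x24 h) (x25 h) (x31 h) (x32 h) (x33 h) (x34 h) (x35 h) (x41 h) (x42 h) (x43 h) (x44 h) (x45 h)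
    (R_le (bd1 h) hξ hη) (R_le (bd2 h) hξ hη) (R_le (bd3 h) hξ hη) (R_le (bd4 h) hξ hη)
    (q1 h) (q2 h) (q3 h) (q4 h) (q5 h) (q6 h) (q7 h) (q8 h) (q9 h) (q10 h) (q11 h) (q12 h)
    hC hp9 hw5 g1 g2 g3 g4 ?_
  simp only [Qd]
  linear_combination ξ * s1 + η * s2 + α * s3 + β * s4 + γ * s5

end Pool.Agent.W2helper54.NW
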